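import Mathlib

set_option autoImplicit false

namespace Pool.Agent.TH586.Illum

abbrev E := EuclideanSpace ℝ (Fin 3)

/-- the functional `f` attains its maximum over `K` at `p` -/
def MaxOn (K : Set E) (f : E →L[ℝ] ℝ) (p : E) : Prop := ∀ z ∈ K, f z ≤ f p

/-- `p`, `q` lie in a common supporting plane -/
def Cof (K : Set E) (p q : E) : Prop := ∃ f : E →L[ℝ] ℝ, f ≠ 0 ∧ MaxOn K f p ∧ MaxOn K f q

theorem Cof.symm {K : Set E} {p q : E} (h : Cof K p q) : Cof K q p := by
  obtain ⟨f, h0, h1, h2⟩ := h
  exact ⟨f, h0, h2, h1⟩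

structure Conf (K : Set E) {ι : Type} (a x : ι → E) : Prop where
  ha : ∀ i, a i ∈ K
  hx : ∀ i, x i ∈ K
  h1 : ∀ i j, i ≠ j → Cof K (x i) (a j)
  h2 : ∀ i, ¬ Cof K (x i) (a i)

theorem Conf.swap {K : Set E} {ι : Type} {a x : ι → E} (h : Conf K a x) : Conf K x a where
  ha := h.hx
  hx := h.ha
  h1 := fun i j hij => (h.h1 j i (Ne.symm hij)).symm
  h2 := fun i hc => h.h2 i hc.symm

theorem Conf.comp {K : Set E} {ι κ : Type} {a x : ι → E} (h : Conf K a x) (e : κ → ι)
    (he : Function.Injective e) : Conf K (a ∘ e) (x ∘ e) where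
  ha := fun _ => h.ha _
  hx := fun _ => h.hx _
  h1 := fun _ _ hij => h.h1 _ _ (fun hh => hij (he hh))
  h2 := fun _ => h.h2 _

/-- transfer of maximality from the positive part of an affine dependence -/
theorem transfer {K : Set E} {n : ℕ} (p : Fin n → E) (hp : ∀ i, p i ∈ K) (w : Fin n → ℝ)
    (hw : ∑ i, w i = 0) (hwp : ∑ i, w i • p i = 0) (f : E →L[ℝ] ℝ)
    (hf : ∀ i, 0 < w i → MaxOn K f (p i)) : ∀ i, w i ≠ 0 → MaxOn K f (p i) := by
  classical
  intro i hi
  by_cases hpos : ∃ i0, 0 < w i0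
  · obtain ⟨i0, hi0⟩ := hpos
    have hM : MaxOn K f (p i0) := hf i0 hi0
    have hsum : ∑ j, w j * (f (p i0) - f (p j)) = 0 := by
      have h1 : f (∑ j, w j • p j) = 0 := by rw [hwp]; simp
      rw [map_sum] at h1
      simp only [map_smul, smul_eq_mul] at h1
      have : ∑ j, w j * (f (p i0) - f (p j)) = (∑ j, w j) * f (p i0) - ∑ j, w j * f (p j) := by
        rw [Finset.sum_mul, ← Finset.sum_sub_distrib]
        apply Finset.sum_congr rfl
        intro j _
        ring
      rw [this, h1, hw]; ring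
    have hle : ∀ j ∈ Finset.univ, w j * (f (p i0) - f (p j)) ≤ 0 := by
      intro j _
      by_cases hj : 0 < w j
      · have hmj := hf j hj
        have e1 : f (p i0) = f (p j) := le_antisymm (hmj _ (hp i0)) (hM _ (hp j))
        rw [e1]; simp
      · push Not at hj
        have : 0 ≤ f (p i0) - f (p j) := sub_nonneg.mpr (hM _ (hp j))
        exact mul_nonpos_of_nonpos_of_nonneg hj this
    have hz := (Finset.sum_eq_zero_iff_of_nonpos hle).mp hsum i (Finset.mem_univ i)
    have h3 : f (p i0) - f (p i) = 0 := by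
      rcases mul_eq_zero.mp hz with h | h
      · exact absurd h hi
      · exact h
    intro z hz'
    have := hM z hz'
    linarith
  · push Not at hpos
    have hle : ∀ j ∈ Finset.univ, w j ≤ 0 := fun j _ => hpos j
    have := (Finset.sum_eq_zero_iff_of_nonpos hle).mp hw i (Finset.mem_univ i)
    exact absurd this hi

theorem transfer_neg {K : Set E} {n : ℕ} (p : Fin n → E) (hp : ∀ i, p i ∈ K) (w : Fin n → ℝ)
    (hw : ∑ i, w i = 0) (hwp : ∑ i, w i • p i = 0) (f : E →L[ℝ] ℝ)
    (hf : ∀ i, w i < 0 → MaxOn K f (p i)) : ∀ i, w i ≠ 0 → MaxOn K f (p i) := by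
  intro i hi
  refine transfer p hp (fun i => - w i) (by simp [hw]) (by simp [hwp]) f ?_ i (by simpa using hi)
  intro j hj
  exact hf j (by simpa using hj)

/-- a nontrivial affine dependence among five points of `ℝ³` -/
theorem exists_dep5 (p : Fin 5 → E) :
    ∃ w : Fin 5 → ℝ, w ≠ 0 ∧ ∑ i, w i = 0 ∧ ∑ i, w i • p i = 0 := by
  let L : (Fin 5 → ℝ) →ₗ[ℝ] (ℝ × E) :=
    { toFun := fun w => (∑ i, w i, ∑ i, w i • p i)
      map_add' := by
        intro u v
        ext1
        · simp [Finset.sum_add_distrib]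
        · simp [Finset.sum_add_distrib, add_smul]
      map_smul' := by
        intro c v
        ext1
        · simp [Finset.mul_sum]
        · simp [Finset.smul_sum, mul_smul] }
  have hker : LinearMap.ker L ≠ ⊥ := by
    apply LinearMap.ker_ne_bot_of_finrank_lt
    simp
  obtain ⟨w, hw, hw0⟩ := (Submodule.ne_bot_iff _).mp hker
  rw [LinearMap.mem_ker] at hw
  have h1 := congrArg Prod.fst hw
  have h2 := congrArg Prod.snd hw
  exact ⟨w, hw0, h1, h2⟩


theorem sign3 (w : Fin 3 → ℝ) :
    (∃ j, ∀ k, 0 < w k → k = j) ∨ (∃ j, ∀ k, w k < 0 → k = j) := by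
  by_cases h0 : 0 < w 0 <;> by_cases h1 : 0 < w 1 <;> by_cases h2 : 0 < w 2
  · exact Or.inr ⟨0, fun k hk => by fin_cases k <;> simp_all <;> linarith⟩
  · exact Or.inr ⟨2, fun k hk => by fin_cases k <;> simp_all <;> linarith⟩
  · exact Or.inr ⟨1, fun k hk => by fin_cases k <;> simp_all <;> linarith⟩
  · exact Or.inl ⟨0, fun k hk => by fin_cases k <;> simp_all <;> linarith⟩
  · exact Or.inr ⟨0, fun k hk => by fin_cases k <;> simp_all <;> linarith⟩
  · exact Or.inl ⟨1, fun k hk => by fin_cases k <;> simp_all <;> linarith⟩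
  · exact Or.inl ⟨2, fun k hk => by fin_cases k <;> simp_all <;> linarith⟩
  · exact Or.inl ⟨0, fun k hk => by fin_cases k <;> simp_all <;> linarith⟩

theorem Conf.a_inj {K : Set E} {ι : Type} {a x : ι → E} (C : Conf K a x) {i j : ι}
    (hij : i ≠ j) : a i ≠ a j := by
  intro h
  apply C.h2 i
  rw [h]
  exact C.h1 i j hij

/-- no three of the `x`'s are collinear -/
theorem Conf.three {K : Set E} {ι : Type} {a x : ι → E} (C : Conf K a x) (e : Fin 3 → ι)
    (he : Function.Injective e) (w : Fin 3 → ℝ) (hw : ∑ i, w i = 0)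
    (hwx : ∑ i, w i • x (e i) = 0) : w = 0 := by
  by_contra hne
  have aux : ∀ j : Fin 3, ∃ i, i ≠ j ∧ w i ≠ 0 := by
    intro j
    by_contra hcon
    push Not at hcon
    apply hne
    have hj : w j = 0 := by
      rw [← hw]
      symm
      exact Finset.sum_eq_single j (fun b _ hb => hcon b hb) (by simp)
    funext i
    by_cases hi : i = j
    · rw [hi, hj]; rfl
    · exact hcon i hi
  rcases sign3 w with ⟨j, hj⟩ | ⟨j, hj⟩
  · obtain ⟨i, hij, hwi⟩ := aux j
    obtain ⟨f, f0, f1, f2⟩ := C.h1 (e j) (e i) (fun h => hij (he h.symm))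
    apply C.h2 (e i)
    refine ⟨f, f0, ?_, f2⟩
    refine transfer (fun i => x (e i)) (fun i => C.hx _) w hw hwx f ?_ i hwi
    intro k hk
    rw [hj k hk]
    exact f1
  · obtain ⟨i, hij, hwi⟩ := aux j
    obtain ⟨f, f0, f1, f2⟩ := C.h1 (e j) (e i) (fun h => hij (he h.symm))
    apply C.h2 (e i)
    refine ⟨f, f0, ?_, f2⟩
    refine transfer_neg (fun i => x (e i)) (fun i => C.hx _) w hw hwx f ?_ i hwi
    intro k hk
    rw [hj k hk]
    exact f1

/-- two `a`'s on the same open side of the plane of three `x`'s are in a common face, together with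
the `x`'s of the support of a dependence -/
theorem Conf.side {K : Set E} {ι : Type} {a x : ι → E} (C : Conf K a x) (i j : ι) (e : Fin 3 → ι)
    (he : Function.Injective e) (hi : ∀ t, e t ≠ i) (hj : ∀ t, e t ≠ j)
    (h : E →L[ℝ] ℝ) (c : ℝ) (hc : ∀ t, h (x (e t)) = c)
    (hpos : 0 < (h (a i) - c) * (h (a j) - c)) :
    ∃ (w1 w2 : ℝ) (u : Fin 3 → ℝ) (f : E →L[ℝ] ℝ), w1 ≠ 0 ∧ w2 ≠ 0 ∧
      w1 + w2 + ∑ t, u t = 0 ∧ w1 • a i + w2 • a j + ∑ t, u t • x (e t) = 0 ∧
      w1 * (h (a i) - c) + w2 * (h (a j) - c) = 0 ∧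
      f ≠ 0 ∧ MaxOn K f (a i) ∧ MaxOn K f (a j) ∧ ∀ t, u t ≠ 0 → MaxOn K f (x (e t)) := by
  obtain ⟨w, hw0, hw1, hw2⟩ := exists_dep5 (Fin.cons (a i) (Fin.cons (a j) (fun t => x (e t))))
  set p : Fin 5 → E := Fin.cons (a i) (Fin.cons (a j) (fun t => x (e t))) with hp
  have hpK : ∀ s, p s ∈ K := by
    intro s
    refine Fin.cases ?_ (fun s => ?_) s
    · exact C.ha i
    · refine Fin.cases ?_ (fun s => ?_) s
      · exact C.ha j
      · exact C.hx _
  have s1 : w 0 + (w 1 + ∑ t : Fin 3, w t.succ.succ) = 0 := by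
    rw [Fin.sum_univ_succ, Fin.sum_univ_succ] at hw1
    exact hw1
  have s2 : w 0 • a i + (w 1 • a j + ∑ t : Fin 3, w t.succ.succ • x (e t)) = 0 := by
    rw [Fin.sum_univ_succ, Fin.sum_univ_succ] at hw2
    exact hw2
  have s3 : w 0 * (h (a i) - c) + w 1 * (h (a j) - c) = 0 := by
    have h1 := congrArg h s2
    simp only [map_add, map_smul, smul_eq_mul, map_sum, map_zero, hc] at h1
    rw [← Finset.sum_mul] at h1
    have : (w 0 + (w 1 + ∑ t : Fin 3, w t.succ.succ)) * c = 0 := by rw [s1]; simp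
    linarith
  set A := h (a i) - c
  set B := h (a j) - c
  have hA : A ≠ 0 := fun h => by rw [h] at hpos; simp at hpos
  have hB : B ≠ 0 := fun h => by rw [h] at hpos; simp at hpos
  have hzero : w 0 = 0 → w 1 = 0 → False := by
    intro z0 z1
    have hu : (fun t : Fin 3 => w t.succ.succ) = 0 := by
      apply C.three e he
      · rw [z0, z1] at s1; simpa using s1
      · rw [z0, z1] at s2; simpa using s2
    apply hw0
    funext s
    refine Fin.cases ?_ (fun s => ?_) s
    · exact z0
    · refine Fin.cases ?_ (fun s => ?_) s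
      · exact z1
      · exact congrFun hu s
  have n0 : w 0 ≠ 0 := by
    intro z0
    rw [z0] at s3
    simp at s3
    rcases s3 with s3 | s3
    · exact hzero z0 s3
    · exact hB s3
  have n1 : w 1 ≠ 0 := by
    intro z1
    rw [z1] at s3
    simp at s3
    rcases s3 with s3 | s3
    · exact hzero s3 z1
    · exact hA s3
  have hopp : w 0 * w 1 < 0 := by
    have h1 : (w 0 * w 1) * (A * B) = - (w 1 * B)^2 := by
      have : w 0 * A = - (w 1 * B) := by linarith
      calc (w 0 * w 1) * (A * B) = (w 0 * A) * (w 1 * B) := by ring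
        _ = - (w 1 * B)^2 := by rw [this]; ring
    have h2 : 0 < (w 1 * B)^2 := by positivity
    by_contra hcon
    push Not at hcon
    have : 0 ≤ (w 0 * w 1) * (A * B) := mul_nonneg hcon hpos.le
    linarith
  have key : ∃ f : E →L[ℝ] ℝ, f ≠ 0 ∧ ((∀ s, 0 < w s → MaxOn K f (p s)) ∨
      (∀ s, w s < 0 → MaxOn K f (p s))) := by
    rcases sign3 (fun t : Fin 3 => w t.succ.succ) with ⟨t0, ht0⟩ | ⟨t0, ht0⟩
    · rcases lt_or_gt_of_ne n0 with hn | hn
      · -- w 0 < 0, w 1 > 0
        obtain ⟨f, f0, f1, f2⟩ := C.h1 (e t0) j (hj t0)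
        refine ⟨f, f0, Or.inl ?_⟩
        intro s
        refine Fin.cases ?_ (fun s => ?_) s
        · intro hs; exact absurd hs (not_lt.mpr hn.le)
        · refine Fin.cases ?_ (fun s => ?_) s
          · intro _; exact f2
          · intro hs
            have := ht0 s hs
            subst this
            exact f1
      · have hn1 : w 1 < 0 := by
          by_contra hcon
          push Not at hcon
          have := mul_nonneg hn.le hcon
          linarith
        obtain ⟨f, f0, f1, f2⟩ := C.h1 (e t0) i (hi t0)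
        refine ⟨f, f0, Or.inl ?_⟩
        intro s
        refine Fin.cases ?_ (fun s => ?_) s
        · intro _; exact f2
        · refine Fin.cases ?_ (fun s => ?_) s
          · intro hs; exact absurd hs (not_lt.mpr hn1.le)
          · intro hs
            have := ht0 s hs
            subst this
            exact f1
    · rcases lt_or_gt_of_ne n0 with hn | hn
      · -- w 0 < 0, w 1 > 0
        have hn1 : 0 < w 1 := by
          by_contra hcon
          push Not at hcon
          have := mul_nonneg_of_nonpos_of_nonpos hn.le hcon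
          linarith
        obtain ⟨f, f0, f1, f2⟩ := C.h1 (e t0) i (hi t0)
        refine ⟨f, f0, Or.inr ?_⟩
        intro s
        refine Fin.cases ?_ (fun s => ?_) s
        · intro _; exact f2
        · refine Fin.cases ?_ (fun s => ?_) s
          · intro hs; exact absurd hs (not_lt.mpr hn1.le)
          · intro hs
            have := ht0 s hs
            subst this
            exact f1
      · obtain ⟨f, f0, f1, f2⟩ := C.h1 (e t0) j (hj t0)
        refine ⟨f, f0, Or.inr ?_⟩
        intro s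
        refine Fin.cases ?_ (fun s => ?_) s
        · intro hs; exact absurd hs (not_lt.mpr hn.le)
        · refine Fin.cases ?_ (fun s => ?_) s
          · intro _; exact f2
          · intro hs
            have := ht0 s hs
            subst this
            exact f1
  obtain ⟨f, f0, hf⟩ := key
  have hall : ∀ s, w s ≠ 0 → MaxOn K f (p s) := by
    rcases hf with hf | hf
    · exact transfer p hpK w hw1 hw2 f hf
    · exact transfer_neg p hpK w hw1 hw2 f hf
  refine ⟨w 0, w 1, fun t => w t.succ.succ, f, n0, n1, by linarith, ?_, s3, f0, hall 0 n0,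
    hall 1 n1, fun t ht => hall t.succ.succ ht⟩
  rw [add_assoc]
  exact s2

end Pool.Agent.TH586.Illum
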