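import Mathlib
import Pool.Agent.TH586.Illum

set_option autoImplicit false

namespace Pool.Agent.TH586.Illum

/-- in a plane of `ℝ³`, two independent vectors span -/
theorem par (h : E →L[ℝ] ℝ) (h0 : h ≠ 0) (u v : E) (hu : h u = 0) (hv : h v = 0)
    (ind : ∀ α β : ℝ, α • u + β • v = 0 → α = 0 ∧ β = 0) (z : E) (hz : h z = 0) :
    ∃ α β : ℝ, z = α • u + β • v := by
  obtain ⟨y, hy⟩ : ∃ y, h y ≠ 0 := by
    by_contra hcon
    push Not at hcon
    exact h0 (ContinuousLinearMap.ext hcon)
  let L : (Fin 4 → ℝ) →ₗ[ℝ] E :=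
    { toFun := fun w => w 0 • u + w 1 • v + w 2 • z + w 3 • y
      map_add' := by
        intro a b
        simp only [Pi.add_apply, add_smul]
        abel
      map_smul' := by
        intro c b
        simp only [Pi.smul_apply, smul_eq_mul, mul_smul, smul_add, RingHom.id_apply] }
  have hker : LinearMap.ker L ≠ ⊥ := by
    apply LinearMap.ker_ne_bot_of_finrank_lt
    simp
  obtain ⟨w, hw, hw0⟩ := (Submodule.ne_bot_iff _).mp hker
  rw [LinearMap.mem_ker] at hw
  have hw' : w 0 • u + w 1 • v + w 2 • z + w 3 • y = 0 := hw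
  have h3 : w 3 = 0 := by
    have := congrArg h hw'
    simp only [map_add, map_smul, hu, hv, hz, smul_eq_mul, mul_zero, zero_add, map_zero] at this
    rcases mul_eq_zero.mp this with h | h
    · exact h
    · exact absurd h hy
  rw [h3] at hw'
  simp only [zero_smul, add_zero] at hw'
  have h2 : w 2 ≠ 0 := by
    intro h2
    rw [h2] at hw'
    simp only [zero_smul, add_zero] at hw'
    obtain ⟨e0, e1⟩ := ind _ _ hw'
    apply hw0
    funext i
    fin_cases i <;> simp_all
  refine ⟨-(w 0) / w 2, -(w 1) / w 2, ?_⟩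
  have : w 2 • z = (-(w 0)) • u + (-(w 1)) • v := by
    rw [neg_smul, neg_smul]
    have h4 : w 2 • z = (w 0 • u + w 1 • v + w 2 • z) - (w 0 • u + w 1 • v) := by abel
    rw [h4, hw']
    abel
  calc z = (w 2)⁻¹ • (w 2 • z) := by rw [smul_smul, inv_mul_cancel₀ h2, one_smul]
    _ = _ := by
      rw [this, smul_add, smul_smul, smul_smul]
      congr 2 <;> ring

theorem Conf.indep {K : Set E} {ι : Type} {a x : ι → E} (C : Conf K a x) (e : Fin 3 → ι)
    (he : Function.Injective e) (α β : ℝ)
    (h : α • (x (e 1) - x (e 0)) + β • (x (e 2) - x (e 0)) = 0) : α = 0 ∧ β = 0 := by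
  have := C.three e he ![-(α + β), α, β] (by simp [Fin.sum_univ_three]) (by
    rw [← h]
    simp only [Fin.sum_univ_three, Matrix.cons_val_zero, Matrix.cons_val_one, Matrix.cons_val]
    module)
  constructor
  · simpa using congrFun this 1
  · simpa using congrFun this 2

/-- two functionals maximal on the same three `x`'s are maximal at the same points -/
theorem Conf.same {K : Set E} {ι : Type} {a x : ι → E} (C : Conf K a x) (e : Fin 3 → ι)
    (he : Function.Injective e) (f g : E →L[ℝ] ℝ) (_ : f ≠ 0) (g0 : g ≠ 0)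
    (hf : ∀ t, MaxOn K f (x (e t))) (hg : ∀ t, MaxOn K g (x (e t))) (p : E)
    (hp : p ∈ K) (hgp : MaxOn K g p) : MaxOn K f p := by
  have ef : ∀ t, f (x (e t)) = f (x (e 0)) := fun t => le_antisymm (hf 0 _ (C.hx _)) (hf t _ (C.hx _))
  have eg : ∀ t, g (x (e t)) = g (x (e 0)) := fun t => le_antisymm (hg 0 _ (C.hx _)) (hg t _ (C.hx _))
  have egp : g p = g (x (e 0)) := le_antisymm (hg 0 _ hp) (hgp _ (C.hx _))
  obtain ⟨α, β, h⟩ := par g g0 (x (e 1) - x (e 0)) (x (e 2) - x (e 0)) (by simp [eg 1]) (by simp [eg 2])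
    (fun α β h => C.indep e he α β h) (p - x (e 0)) (by simp [egp])
  have : f (p - x (e 0)) = 0 := by
    rw [h]
    simp [ef 1, ef 2]
  have e2 : f p = f (x (e 0)) := by
    simpa [sub_eq_zero] using this
  intro z hz
  rw [e2]
  exact hf 0 z hz

theorem comb (R : Fin 6 → Fin 6 → Prop) (Z : Fin 6 → Prop)
    (hsym : ∀ k l, R k l → R l k)
    (h3 : ∀ k l n, k ≠ l → l ≠ n → k ≠ n → R k l ∨ R l n ∨ R k n)
    (hZ : ∀ k l n, k ≠ n → k ≠ l → l ≠ n → R k l → R l n → Z l)
    (hZ1 : ∀ k l, Z k → Z l → k = l) : False := by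
  obtain ⟨l0, hl0⟩ : ∃ l0, ∀ l, l ≠ l0 → ¬ Z l := by
    by_cases h : ∃ l, Z l
    · obtain ⟨l0, hl0⟩ := h
      exact ⟨l0, fun l hl hZl => hl (hZ1 _ _ hZl hl0)⟩
    · push Not at h
      exact ⟨0, fun l _ => h l⟩
  let p : Fin 5 → Fin 6 := l0.succAbove
  have hp : Function.Injective p := Fin.succAbove_right_injective
  have hpn : ∀ i, p i ≠ l0 := fun i => Fin.succAbove_ne l0 i
  have t3 : ∀ k l n : Fin 5, k ≠ l → l ≠ n → k ≠ n → ¬ R (p k) (p l) → ¬ R (p k) (p n) →
      R (p l) (p n) := by
    intro k l n h1 h2 h3' h4 h5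
    rcases h3 (p k) (p l) (p n) (fun h => h1 (hp h)) (fun h => h2 (hp h)) (fun h => h3' (hp h))
      with h | h | h
    · exact absurd h h4
    · exact h
    · exact absurd h h5
  have u : ∀ k l n : Fin 5, k ≠ n → k ≠ l → l ≠ n → R (p k) (p l) → R (p l) (p n) → False := by
    intro k l n h1 h2 h3' h4 h5
    exact hl0 _ (hpn l) (hZ (p k) (p l) (p n) (fun h => h1 (hp h)) (fun h => h2 (hp h))
      (fun h => h3' (hp h)) h4 h5)
  have fin : ∀ q r s : Fin 5, 0 ≠ q → 0 ≠ r → 0 ≠ s → q ≠ r → q ≠ s → r ≠ s → ¬ R (p 0) (p q) →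
      ¬ R (p 0) (p r) → ¬ R (p 0) (p s) → False := by
    intro q r s h1 h2 h3' h4 h5 h6 n1 n2 n3
    have a1 := t3 0 q r h1 h4 h2 n1 n2
    have a2 := t3 0 q s h1 h5 h3' n1 n3
    exact u r q s h6 h4.symm h5 (hsym _ _ a1) a2
  have nb : ∀ q r : Fin 5, 0 ≠ q → 0 ≠ r → q ≠ r → R (p 0) (p q) → ¬ R (p 0) (p r) := by
    intro q r h1 h2 h4 h5 h6
    exact u q 0 r h4 h1.symm h2 (hsym _ _ h5) h6
  by_cases r1 : R (p 0) (p 1)
  · exact fin 2 3 4 (by decide) (by decide) (by decide) (by decide) (by decide) (by decide)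
      (nb 1 2 (by decide) (by decide) (by decide) r1) (nb 1 3 (by decide) (by decide) (by decide) r1)
      (nb 1 4 (by decide) (by decide) (by decide) r1)
  · by_cases r2 : R (p 0) (p 2)
    · exact fin 1 3 4 (by decide) (by decide) (by decide) (by decide) (by decide) (by decide)
        (nb 2 1 (by decide) (by decide) (by decide) r2) (nb 2 3 (by decide) (by decide) (by decide) r2)
        (nb 2 4 (by decide) (by decide) (by decide) r2)
    · by_cases r3 : R (p 0) (p 3)
      · exact fin 1 2 4 (by decide) (by decide) (by decide) (by decide) (by decide) (by decide)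
          (nb 3 1 (by decide) (by decide) (by decide) r3) (nb 3 2 (by decide) (by decide) (by decide) r3)
          (nb 3 4 (by decide) (by decide) (by decide) r3)
      · exact fin 1 2 3 (by decide) (by decide) (by decide) (by decide) (by decide) (by decide) r1 r2 r3

/-- no face contains eight of the `x`'s -/
theorem Conf.face8 {K : Set E} {a x : Fin 8 → E} (C : Conf K a x) (f : E →L[ℝ] ℝ) (f0 : f ≠ 0)
    (hf : ∀ i, MaxOn K f (x i)) : False := by
  set M := f (x 0) with hM
  have hx : ∀ i, f (x i) = M := fun i => le_antisymm (hf 0 _ (C.hx _)) (hf i _ (C.hx _))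
  have hlt : ∀ i, f (a i) < M := by
    intro i
    have h1 : f (a i) ≤ M := hf 0 _ (C.ha _)
    rcases lt_or_eq_of_le h1 with h | h
    · exact h
    · exfalso
      apply C.h2 i
      refine ⟨f, f0, hf i, ?_⟩
      intro z hz
      rw [h]
      exact hf 0 z hz
  set α := M - f (a 0) with hα
  set β := M - f (a 1) with hβ
  have hαp : 0 < α := sub_pos.mpr (hlt 0)
  have hβp : 0 < β := sub_pos.mpr (hlt 1)
  set q : E := α • a 1 - β • a 0 with hq
  set s : ℝ := α - β with hs
  let y : Fin 6 → E := fun i => x i.succ.succ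
  have key : ∀ e : Fin 3 → Fin 6, Function.Injective e → ∃ u : Fin 3 → ℝ, ∑ t, u t = s ∧
      ∑ t, u t • y (e t) = q ∧ ∃ t, u t = 0 := by
    intro e he
    let e' : Fin 3 → Fin 8 := fun t => (e t).succ.succ
    have he' : Function.Injective e' := by
      intro t1 t2 h
      exact he (Fin.succ_injective _ (Fin.succ_injective _ h))
    obtain ⟨w1, w2, u, g, n1, n2, s1, s2, s3, g0, g1, g2, g3⟩ := C.side 0 1 e' he'
      (fun t => by simp [e']) (fun t => by
        intro h
        have : (e t).succ = 0 := Fin.succ_injective _ h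
        exact absurd this (Fin.succ_ne_zero _)) f M
      (fun t => hx _) (by
        have : (f (a 0) - M) * (f (a 1) - M) = α * β := by rw [hα, hβ]; ring
        rw [this]; exact mul_pos hαp hβp)
    have hz : ∃ t, u t = 0 := by
      by_contra hcon
      push Not at hcon
      have hg : ∀ t, MaxOn K g (x (e' t)) := fun t => g3 t (hcon t)
      have := C.same e' he' f g f0 g0 (fun t => hf _) hg (a 0) (C.ha 0) g1
      exact C.h2 0 ⟨f, f0, hf 0, this⟩
    have s3' : w1 * α + w2 * β = 0 := by
      have : w1 * (f (a 0) - M) + w2 * (f (a 1) - M) = -(w1 * α + w2 * β) := by rw [hα, hβ]; ring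
      linarith
    have hw1 : w1 = (w1 / β) * β := by field_simp
    have hw2 : w2 = -((w1 / β) * α) := by
      field_simp
      linarith
    set t := w1 / β with ht
    have t0 : t ≠ 0 := div_ne_zero n1 hβp.ne'
    refine ⟨fun i => u i / t, ?_, ?_, ?_⟩
    · rw [← Finset.sum_div]
      rw [hw1, hw2] at s1
      field_simp
      rw [hs]
      linarith
    · have h1 : ∑ i, (u i / t) • y (e i) = t⁻¹ • ∑ i, u i • x (e' i) := by
        rw [Finset.smul_sum]
        apply Finset.sum_congr rfl
        intro i _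
        rw [smul_smul]
        congr 1
        field_simp
      rw [h1]
      have h2 : ∑ i, u i • x (e' i) = t • q := by
        have : ∑ i, u i • x (e' i) = (w1 • a 0 + w2 • a 1 + ∑ i, u i • x (e' i)) - (w1 • a 0 + w2 • a 1) := by
          abel
        rw [this, s2, hw1, hw2, hq]
        module
      rw [h2, smul_smul, inv_mul_cancel₀ t0, one_smul]
    · obtain ⟨i, hi⟩ := hz
      exact ⟨i, by simp [hi]⟩
  have thr : ∀ (k l n : Fin 6), k ≠ l → l ≠ n → k ≠ n → Function.Injective ![k, l, n] := by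
    intro k l n h1 h2 h3
    intro i j hij
    fin_cases i <;> fin_cases j <;> simp_all
  apply comb (fun k l => ∃ u v : ℝ, u + v = s ∧ u • y k + v • y l = q) (fun l => s • y l = q)
  · rintro k l ⟨u, v, h1, h2⟩
    exact ⟨v, u, by linarith, by rw [← h2]; abel⟩
  · intro k l n h1 h2 h3
    obtain ⟨u, hu1, hu2, t, ht⟩ := key ![k, l, n] (thr k l n h1 h2 h3)
    simp only [Fin.sum_univ_three, Matrix.cons_val_zero, Matrix.cons_val_one, Matrix.cons_val] at hu1 hu2
    fin_cases t
    · right; left
      simp only [Fin.zero_eta] at ht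
      rw [ht] at hu1 hu2
      exact ⟨u 1, u 2, by linarith, by rw [← hu2]; simp⟩
    · right; right
      simp only [Fin.mk_one] at ht
      rw [ht] at hu1 hu2
      exact ⟨u 0, u 2, by linarith, by rw [← hu2]; simp⟩
    · left
      have ht' : u 2 = 0 := ht
      rw [ht'] at hu1 hu2
      exact ⟨u 0, u 1, by linarith, by rw [← hu2]; simp⟩
  · rintro k l n h1 h2 h3 ⟨u, v, e1, e2⟩ ⟨u', v', e3, e4⟩
    have inj := thr k l n h2 h3 h1
    let e' : Fin 3 → Fin 8 := fun t => (![k, l, n] t).succ.succ
    have he' : Function.Injective e' := by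
      intro t1 t2 h
      exact inj (Fin.succ_injective _ (Fin.succ_injective _ h))
    have := C.three e' he' ![u, v - u', -v'] (by simp [Fin.sum_univ_three]; linarith) (by
      have h5 : ∑ t, ![u, v - u', -v'] t • x (e' t) = (u • y k + v • y l) - (u' • y l + v' • y n) := by
        simp only [Fin.sum_univ_three, Matrix.cons_val_zero, Matrix.cons_val_one, Matrix.cons_val, e', y]
        module
      rw [h5, e2, e4]; abel)
    have hu : u = 0 := by simpa using congrFun this 0
    rw [hu] at e1 e2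
    show s • y l = q
    rw [← e2, ← e1]
    simp
  · intro k l hk hl
    by_contra hkl
    have hk' : s • y k = q := hk
    have hl' : s • y l = q := hl
    have hyy : y k ≠ y l := C.swap.a_inj (fun h => hkl (Fin.succ_injective _ (Fin.succ_injective _ h)))
    have hs0 : s = 0 := by
      have : s • (y k - y l) = 0 := by rw [smul_sub, hk', hl']; abel
      rcases smul_eq_zero.mp this with h | h
      · exact h
      · exact absurd (sub_eq_zero.mp h) hyy
    rw [hs0] at hk'
    have hq0 : q = 0 := by rw [← hk']; simp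
    have hab : α = β := by linarith
    rw [hq, ← hab, ← smul_sub] at hq0
    rcases smul_eq_zero.mp hq0 with h | h
    · exact hαp.ne' h
    · exact C.a_inj (i := 1) (j := 0) (by decide) (sub_eq_zero.mp h)

end Pool.Agent.TH586.Illum
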