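import Mathlib
import Pool.Agent.TH586.Illum2

set_option autoImplicit false

namespace Pool.Agent.TH586.Illum

theorem signN {n : ℕ} (hn : n ≤ 5) (hn2 : 2 ≤ n) (w : Fin n → ℝ) :
    (∃ j k, j ≠ k ∧ ∀ t, 0 < w t → t = j ∨ t = k) ∨ (∃ j k, j ≠ k ∧ ∀ t, w t < 0 → t = j ∨ t = k) := by
  classical
  set P := Finset.univ.filter (fun t => 0 < w t) with hP
  set N := Finset.univ.filter (fun t => w t < 0) with hN
  have hdisj : Disjoint P N := by
    rw [Finset.disjoint_left]
    intro t h1 h2
    simp only [hP, hN, Finset.mem_filter, Finset.mem_univ, true_and] at h1 h2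
    linarith
  have hcard : P.card + N.card ≤ n := by
    rw [← Finset.card_union_of_disjoint hdisj]
    exact (Finset.card_le_univ _).trans (by simp)
  have aux : ∀ S : Finset (Fin n), S.card ≤ 2 → ∃ j k, j ≠ k ∧ ∀ t ∈ S, t = j ∨ t = k := by
    intro S hS
    obtain ⟨T, hST, hT⟩ := Finset.exists_superset_card_eq hS (by simpa using hn2)
    obtain ⟨j, k, hjk, hT'⟩ := Finset.card_eq_two.mp hT
    refine ⟨j, k, hjk, fun t ht => ?_⟩
    have := hST ht
    rw [hT'] at this
    simpa using this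
  by_cases h : P.card ≤ 2
  · left
    obtain ⟨j, k, hjk, h'⟩ := aux P h
    exact ⟨j, k, hjk, fun t ht => h' t (by simp [hP, ht])⟩
  · right
    obtain ⟨j, k, hjk, h'⟩ := aux N (by omega)
    exact ⟨j, k, hjk, fun t ht => h' t (by simp [hN, ht])⟩

/-- pairwise cofacial points with a dependence: the support is cofacial -/
theorem supp_cof {K : Set E} {n : ℕ} (hn : n ≤ 5) (hn2 : 2 ≤ n) (p : Fin n → E) (hp : ∀ t, p t ∈ K)
    (hc : ∀ i j, i ≠ j → Cof K (p i) (p j)) (w : Fin n → ℝ)
    (hw : ∑ i, w i = 0) (hwp : ∑ i, w i • p i = 0) :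
    ∃ f : E →L[ℝ] ℝ, f ≠ 0 ∧ ∀ t, w t ≠ 0 → MaxOn K f (p t) := by
  rcases signN hn hn2 w with ⟨j, k, hjk, h⟩ | ⟨j, k, hjk, h⟩
  · obtain ⟨f, f0, f1, f2⟩ := hc j k hjk
    refine ⟨f, f0, transfer p hp w hw hwp f ?_⟩
    intro i hi
    rcases h i hi with h | h <;> rw [h] <;> assumption
  · obtain ⟨f, f0, f1, f2⟩ := hc j k hjk
    refine ⟨f, f0, transfer_neg p hp w hw hwp f ?_⟩
    intro i hi
    rcases h i hi with h | h <;> rw [h] <;> assumption

/-- among five pairwise cofacial `x`'s, four are in a common face -/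
theorem Conf.four_of_five {K : Set E} {ι : Type} {a x : ι → E} (C : Conf K a x) (e : Fin 5 → ι)
    (he : Function.Injective e) (hc : ∀ i j, i ≠ j → Cof K (x (e i)) (x (e j))) :
    ∃ t0, ∃ f : E →L[ℝ] ℝ, f ≠ 0 ∧ ∀ t, t ≠ t0 → MaxOn K f (x (e t)) := by
  obtain ⟨w, hw0, hw1, hw2⟩ := exists_dep5 (fun t => x (e t))
  obtain ⟨f, f0, hf⟩ := supp_cof le_rfl (by norm_num) (fun t => x (e t)) (fun t => C.hx _) hc w hw1 hw2
  by_cases hz : ∃ t0, w t0 = 0
  · obtain ⟨t0, ht0⟩ := hz
    refine ⟨t0, f, f0, ?_⟩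
    intro t ht
    apply hf
    intro hwt
    -- then w is supported on three points
    obtain ⟨s, hs⟩ : ∃ s : Fin 4, t0.succAbove s = t := Fin.exists_succAbove_eq ht
    let e' : Fin 3 → Fin 5 := fun i => t0.succAbove (s.succAbove i)
    have he' : Function.Injective e' := by
      intro i j hij
      exact Fin.succAbove_right_injective (Fin.succAbove_right_injective hij)
    have := C.three (fun i => e (e' i)) (fun i j hij => he' (he hij)) (fun i => w (e' i)) (by
      rw [Fin.sum_univ_succAbove _ t0, ht0, zero_add, Fin.sum_univ_succAbove _ s, hs, hwt, zero_add] at hw1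
      exact hw1) (by
      rw [Fin.sum_univ_succAbove _ t0, ht0, zero_smul, zero_add, Fin.sum_univ_succAbove _ s, hs, hwt,
        zero_smul, zero_add] at hw2
      exact hw2)
    apply hw0
    funext i
    by_cases hi : i = t0
    · rw [hi, ht0]; rfl
    · obtain ⟨s', hs'⟩ : ∃ s' : Fin 4, t0.succAbove s' = i := Fin.exists_succAbove_eq hi
      by_cases hi' : s' = s
      · rw [← hs', hi', hs, hwt]; rfl
      · obtain ⟨s'', hs''⟩ : ∃ s'' : Fin 3, s.succAbove s'' = s' := Fin.exists_succAbove_eq hi'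
        have := congrFun this s''
        simp only [e', hs'', hs'] at this
        exact this
  · push Not at hz
    exact ⟨0, f, f0, fun t _ => hf t (hz t)⟩

/-- no face contains eight of the `x`'s, Finset version -/
theorem Conf.face8' {K : Set E} {ι : Type} {a x : ι → E} (C : Conf K a x) (f : E →L[ℝ] ℝ) (f0 : f ≠ 0)
    (S : Finset ι) (hS : ∀ i ∈ S, MaxOn K f (x i)) : S.card ≤ 7 := by
  by_contra hcon
  push Not at hcon
  obtain ⟨T, hTS, hT⟩ := Finset.exists_subset_card_eq (show 8 ≤ S.card by omega)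
  let e : Fin 8 → ι := fun i => (T.equivFin.symm (Fin.cast hT.symm i)).1
  have he : Function.Injective e := by
    intro i j hij
    have := T.equivFin.symm.injective (Subtype.ext hij)
    exact Fin.cast_injective _ this
  exact (C.comp e he).face8 f f0 (fun i => hS _ (hTS (T.equivFin.symm (Fin.cast hT.symm i)).2))

theorem inj_cons3 {ι : Type} {p q r : ι} (h1 : p ≠ q) (h2 : q ≠ r) (h3 : p ≠ r) :
    Function.Injective ![p, q, r] := by
  intro i j hij
  fin_cases i <;> fin_cases j <;> simp_all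

theorem inj_cons5 {ι : Type} {p q r s t : ι} (h1 : p ≠ q) (h2 : p ≠ r) (h3 : p ≠ s) (h4 : p ≠ t)
    (h5 : q ≠ r) (h6 : q ≠ s) (h7 : q ≠ t) (h8 : r ≠ s) (h9 : r ≠ t) (h10 : s ≠ t) :
    Function.Injective ![p, q, r, s, t] := by
  intro i j hij
  fin_cases i <;> fin_cases j <;> first
    | rfl
    | exact absurd hij h1 | exact absurd hij h2 | exact absurd hij h3 | exact absurd hij h4
    | exact absurd hij h5 | exact absurd hij h6 | exact absurd hij h7 | exact absurd hij h8
    | exact absurd hij h9 | exact absurd hij h10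
    | exact absurd hij.symm h1 | exact absurd hij.symm h2 | exact absurd hij.symm h3
    | exact absurd hij.symm h4 | exact absurd hij.symm h5 | exact absurd hij.symm h6
    | exact absurd hij.symm h7 | exact absurd hij.symm h8 | exact absurd hij.symm h9
    | exact absurd hij.symm h10

/-- at most 32 of the `x`'s are pairwise cofacial -/
theorem Conf.pairwise_le {K : Set E} {ι : Type} [DecidableEq ι] {a x : ι → E} (C : Conf K a x)
    (P : Finset ι) (hP : ∀ i ∈ P, ∀ j ∈ P, i ≠ j → Cof K (x i) (x j)) : P.card ≤ 32 := by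
  classical
  by_contra hcon
  push Not at hcon
  let L : ι → ι → ι → Finset ι := fun i j k => P.filter (fun l => ∃ f : E →L[ℝ] ℝ, f ≠ 0 ∧
    MaxOn K f (x i) ∧ MaxOn K f (x j) ∧ MaxOn K f (x k) ∧ MaxOn K f (x l))
  have hL : ∀ i j k, i ≠ j → j ≠ k → i ≠ k → (L i j k).card ≤ 7 := by
    intro i j k h1 h2 h3
    by_cases hne : (L i j k).Nonempty
    · obtain ⟨l, hl⟩ := hne
      obtain ⟨f, f0, f1, f2, f3, f4⟩ := (Finset.mem_filter.mp hl).2
      apply C.face8' f f0
      intro l' hl'
      obtain ⟨g, g0, g1, g2, g3, g4⟩ := (Finset.mem_filter.mp hl').2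
      refine C.same ![i, j, k] (inj_cons3 h1 h2 h3) f g f0 g0 ?_ ?_ _ (C.hx _) g4
      · intro t; fin_cases t <;> simpa
      · intro t; fin_cases t <;> simpa
    · rw [Finset.not_nonempty_iff_eq_empty] at hne
      rw [hne]; simp
  -- choose five points
  have pick : ∀ S : Finset ι, S.card ≤ 32 → ∃ i ∈ P, i ∉ S := by
    intro S hS
    by_contra hcon2
    push Not at hcon2
    have := Finset.card_le_card hcon2
    omega
  obtain ⟨p1, m1, -⟩ := pick ∅ (by simp)
  obtain ⟨p2, m2, h2⟩ := pick {p1} (by simp)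
  obtain ⟨p3, m3, h3⟩ := pick {p1, p2} (by
    have := Finset.card_le_two (a := p1) (b := p2)
    omega)
  simp only [Finset.mem_singleton, Finset.mem_insert, not_or] at h2 h3
  have n12 : p1 ≠ p2 := Ne.symm h2
  have n13 : p1 ≠ p3 := Ne.symm h3.1
  have n23 : p2 ≠ p3 := Ne.symm h3.2
  obtain ⟨p4, m4, h4⟩ := pick ({p1, p2, p3} ∪ L p1 p2 p3) (by
    have := Finset.card_le_three (a := p1) (b := p2) (c := p3)
    have := hL p1 p2 p3 n12 n23 n13
    have := Finset.card_union_le {p1, p2, p3} (L p1 p2 p3)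
    omega)
  simp only [Finset.mem_union, Finset.mem_singleton, Finset.mem_insert, not_or] at h4
  obtain ⟨⟨n41, n42, n43⟩, l4⟩ := h4
  obtain ⟨p5, m5, h5⟩ := pick ({p1, p2, p3, p4} ∪ (L p1 p2 p3 ∪ (L p1 p2 p4 ∪ (L p1 p3 p4 ∪ L p2 p3 p4)))) (by
    have := Finset.card_le_four (a := p1) (b := p2) (c := p3) (d := p4)
    have := hL p1 p2 p3 n12 n23 n13
    have := hL p1 p2 p4 n12 (Ne.symm n42) (Ne.symm n41)
    have := hL p1 p3 p4 n13 (Ne.symm n43) (Ne.symm n41)
    have := hL p2 p3 p4 n23 (Ne.symm n43) (Ne.symm n42)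
    have := Finset.card_union_le {p1, p2, p3, p4} (L p1 p2 p3 ∪ (L p1 p2 p4 ∪ (L p1 p3 p4 ∪ L p2 p3 p4)))
    have := Finset.card_union_le (L p1 p2 p3) (L p1 p2 p4 ∪ (L p1 p3 p4 ∪ L p2 p3 p4))
    have := Finset.card_union_le (L p1 p2 p4) (L p1 p3 p4 ∪ L p2 p3 p4)
    have := Finset.card_union_le (L p1 p3 p4) (L p2 p3 p4)
    omega)
  simp only [Finset.mem_union, Finset.mem_singleton, Finset.mem_insert, not_or] at h5
  obtain ⟨⟨n51, n52, n53, n54⟩, l51, l52, l53, l54⟩ := h5
  have l4' : ¬ ∃ f : E →L[ℝ] ℝ, f ≠ 0 ∧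
    MaxOn K f (x p1) ∧ MaxOn K f (x p2) ∧ MaxOn K f (x p3) ∧ MaxOn K f (x p4) := fun h =>
      l4 (Finset.mem_filter.mpr ⟨m4, h⟩)
  have l51' : ¬ ∃ f : E →L[ℝ] ℝ, f ≠ 0 ∧
    MaxOn K f (x p1) ∧ MaxOn K f (x p2) ∧ MaxOn K f (x p3) ∧ MaxOn K f (x p5) := fun h =>
      l51 (Finset.mem_filter.mpr ⟨m5, h⟩)
  have l52' : ¬ ∃ f : E →L[ℝ] ℝ, f ≠ 0 ∧
    MaxOn K f (x p1) ∧ MaxOn K f (x p2) ∧ MaxOn K f (x p4) ∧ MaxOn K f (x p5) := fun h =>
      l52 (Finset.mem_filter.mpr ⟨m5, h⟩)
  have l53' : ¬ ∃ f : E →L[ℝ] ℝ, f ≠ 0 ∧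
    MaxOn K f (x p1) ∧ MaxOn K f (x p3) ∧ MaxOn K f (x p4) ∧ MaxOn K f (x p5) := fun h =>
      l53 (Finset.mem_filter.mpr ⟨m5, h⟩)
  have l54' : ¬ ∃ f : E →L[ℝ] ℝ, f ≠ 0 ∧
    MaxOn K f (x p2) ∧ MaxOn K f (x p3) ∧ MaxOn K f (x p4) ∧ MaxOn K f (x p5) := fun h =>
      l54 (Finset.mem_filter.mpr ⟨m5, h⟩)
  have einj : Function.Injective ![p1, p2, p3, p4, p5] :=
    inj_cons5 n12 n13 (Ne.symm n41) (Ne.symm n51) n23 (Ne.symm n42) (Ne.symm n52) (Ne.symm n43)
      (Ne.symm n53) (Ne.symm n54)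
  have emem : ∀ t, ![p1, p2, p3, p4, p5] t ∈ P := by
    intro t
    fin_cases t
    · exact m1
    · exact m2
    · exact m3
    · exact m4
    · exact m5
  obtain ⟨t0, f, f0, hf⟩ := C.four_of_five ![p1, p2, p3, p4, p5] einj (fun i j hij =>
    hP _ (emem i) _ (emem j) (fun h => hij (einj h)))
  fin_cases t0
  · exact l54' ⟨f, f0, hf 1 (by decide), hf 2 (by decide), hf 3 (by decide), hf 4 (by decide)⟩
  · exact l53' ⟨f, f0, hf 0 (by decide), hf 2 (by decide), hf 3 (by decide), hf 4 (by decide)⟩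
  · exact l52' ⟨f, f0, hf 0 (by decide), hf 1 (by decide), hf 3 (by decide), hf 4 (by decide)⟩
  · exact l51' ⟨f, f0, hf 0 (by decide), hf 1 (by decide), hf 2 (by decide), hf 4 (by decide)⟩
  · exact l4' ⟨f, f0, hf 0 (by decide), hf 1 (by decide), hf 2 (by decide), hf 3 (by decide)⟩

/-- the `a`'s in the plane of three `x`'s -/
theorem Conf.plane_le {K : Set E} {ι : Type} [DecidableEq ι] {a x : ι → E} (C : Conf K a x)
    (e : Fin 3 → ι) (he : Function.Injective e) (h : E →L[ℝ] ℝ) (h0 : h ≠ 0) (c : ℝ)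
    (hc : ∀ t, h (x (e t)) = c) (Z : Finset ι) (hZ : ∀ i ∈ Z, (∀ t, e t ≠ i) ∧ h (a i) = c) :
    Z.card ≤ 7 := by
  classical
  by_contra hcon
  push Not at hcon
  have rep : ∀ i ∈ Z, ∃ v : Fin 3 → ℝ, ∑ t, v t = 1 ∧ a i = ∑ t, v t • x (e t) := by
    intro i hi
    obtain ⟨α, β, hab⟩ := par h h0 (x (e 1) - x (e 0)) (x (e 2) - x (e 0)) (by simp [hc]) (by simp [hc])
      (fun α β h => C.indep e he α β h) (a i - x (e 0)) (by simp [hc, (hZ i hi).2])
    refine ⟨![1 - α - β, α, β], by simp only [Fin.sum_univ_three, Matrix.cons_val_zero, Matrix.cons_val_one, Matrix.cons_val]; ring, ?_⟩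
    have : a i = x (e 0) + (a i - x (e 0)) := by abel
    rw [this, hab]
    simp only [Fin.sum_univ_three, Matrix.cons_val_zero, Matrix.cons_val_one, Matrix.cons_val]
    module
  choose! v hv1 hv2 using rep
  by_cases hfull : ∃ i ∈ Z, ∀ t, v i t ≠ 0
  · obtain ⟨i, hi, hvi⟩ := hfull
    -- the plane is supporting
    have hdep1 : ∑ s, (Fin.cons (-1) (v i) : Fin 4 → ℝ) s = 0 := by
      rw [Fin.sum_univ_succ]
      simp only [Fin.cons_zero, Fin.cons_succ]
      rw [hv1 i hi]; norm_num
    have hdep2 : ∑ s, (Fin.cons (-1) (v i) : Fin 4 → ℝ) s • (Fin.cons (a i) (fun t => x (e t)) : Fin 4 → E) s = 0 := by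
      rw [Fin.sum_univ_succ]
      simp only [Fin.cons_zero, Fin.cons_succ]
      rw [← hv2 i hi]; simp
    have hpK : ∀ s, (Fin.cons (a i) (fun t => x (e t)) : Fin 4 → E) s ∈ K := by
      intro s
      refine Fin.cases ?_ (fun s => ?_) s
      · exact C.ha i
      · exact C.hx _
    have key : ∃ f : E →L[ℝ] ℝ, f ≠ 0 ∧ ∀ s, (Fin.cons (-1) (v i) : Fin 4 → ℝ) s ≠ 0 →
        MaxOn K f ((Fin.cons (a i) (fun t => x (e t)) : Fin 4 → E) s) := by
      rcases sign3 (v i) with ⟨j, hj⟩ | ⟨j, hj⟩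
      · obtain ⟨f, f0, f1, f2⟩ := C.h1 (e j) i ((hZ i hi).1 j)
        refine ⟨f, f0, transfer _ hpK _ hdep1 hdep2 f ?_⟩
        intro s
        refine Fin.cases ?_ (fun s => ?_) s
        · intro hs
          simp only [Fin.cons_zero] at hs
          norm_num at hs
        · intro hs
          simp only [Fin.cons_succ] at hs ⊢
          rw [hj s hs]
          exact f1
      · obtain ⟨f, f0, f1, f2⟩ := C.h1 (e j) i ((hZ i hi).1 j)
        refine ⟨f, f0, transfer_neg _ hpK _ hdep1 hdep2 f ?_⟩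
        intro s
        refine Fin.cases ?_ (fun s => ?_) s
        · intro hs
          simp only [Fin.cons_zero]
          exact f2
        · intro hs
          simp only [Fin.cons_succ] at hs ⊢
          rw [hj s hs]
          exact f1
    obtain ⟨f, f0, hf⟩ := key
    have hfx : ∀ t, MaxOn K f (x (e t)) := by
      intro t
      have := hf t.succ (by simp only [Fin.cons_succ]; exact hvi t)
      simpa only [Fin.cons_succ] using this
    have hfe : ∀ t, f (x (e t)) = f (x (e 0)) := fun t =>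
      le_antisymm (hfx 0 _ (C.hx _)) (hfx t _ (C.hx _))
    have hfa : ∀ j ∈ Z, MaxOn K f (a j) := by
      intro j hj
      have : f (a j) = f (x (e 0)) := by
        rw [hv2 j hj, map_sum]
        simp only [map_smul, smul_eq_mul, hfe]
        rw [← Finset.sum_mul, hv1 j hj, one_mul]
      intro z hz
      rw [this]
      exact hfx 0 z hz
    have := C.swap.face8' f f0 Z hfa
    omega
  · push Not at hfull
    choose! g hg using hfull
    obtain ⟨t, ht, htc⟩ := Finset.exists_lt_card_fiber_of_mul_lt_card_of_maps_to (s := Z)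
      (t := (Finset.univ : Finset (Fin 3))) (f := g) (n := 2) (fun i _ => Finset.mem_univ _) (by simp; omega)
    obtain ⟨T, hTS, hT⟩ := Finset.exists_subset_card_eq (show 3 ≤ (Z.filter (fun i => g i = t)).card by omega)
    obtain ⟨i, j, k, hij, hik, hjk, hTe⟩ := Finset.card_eq_three.mp hT
    have hi : i ∈ Z ∧ g i = t := Finset.mem_filter.mp (hTS (by rw [hTe]; simp))
    have hj : j ∈ Z ∧ g j = t := Finset.mem_filter.mp (hTS (by rw [hTe]; simp))
    have hk : k ∈ Z ∧ g k = t := Finset.mem_filter.mp (hTS (by rw [hTe]; simp))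
    -- each of the three is on the line of the other two x's
    obtain ⟨y, z, hyz⟩ : ∃ y z : E, ∀ i ∈ Z, g i = t → ∃ μ : ℝ, a i = y + μ • z := by
      refine ⟨x (e (t + 1)), x (e (t + 2)) - x (e (t + 1)), ?_⟩
      intro i hi hgi
      refine ⟨v i (t + 2), ?_⟩
      have h1 := hv1 i hi
      have h2 := hv2 i hi
      have h3 := hg i hi
      rw [hgi] at h3
      rw [h2]
      have e1 : v i (t + 1) = 1 - v i (t + 2) := by
        rw [Fin.sum_univ_three] at h1
        fin_cases t
        · have : v i 0 = 0 := h3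
          show v i 1 = 1 - v i 2
          linarith
        · have : v i 1 = 0 := h3
          show v i 2 = 1 - v i 0
          linarith
        · have : v i 2 = 0 := h3
          show v i 0 = 1 - v i 1
          linarith
      have e2 : ∑ s, v i s • x (e s) = v i (t + 1) • x (e (t + 1)) + v i (t + 2) • x (e (t + 2)) := by
        rw [Fin.sum_univ_three]
        fin_cases t
        · have : v i 0 = 0 := h3
          show _ = v i 1 • x (e 1) + v i 2 • x (e 2)
          rw [this]; simp
        · have : v i 1 = 0 := h3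
          show _ = v i 2 • x (e 2) + v i 0 • x (e 0)
          rw [this]; simp; abel
        · have : v i 2 = 0 := h3
          show _ = v i 0 • x (e 0) + v i 1 • x (e 1)
          rw [this]; simp
      rw [e2, e1]
      module
    obtain ⟨μi, hμi⟩ := hyz i hi.1 hi.2
    obtain ⟨μj, hμj⟩ := hyz j hj.1 hj.2
    obtain ⟨μk, hμk⟩ := hyz k hk.1 hk.2
    have := C.swap.three ![i, j, k] (inj_cons3 hij hjk hik) ![μj - μk, μk - μi, μi - μj]
      (by simp [Fin.sum_univ_three]) (by
        simp only [Fin.sum_univ_three, Matrix.cons_val_zero, Matrix.cons_val_one, Matrix.cons_val]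
        rw [hμi, hμj, hμk]
        module)
    have h1 : μj - μk = 0 := by simpa using congrFun this 0
    apply C.a_inj hjk
    rw [hμj, hμk, sub_eq_zero.mp h1]

/-- main bound -/
theorem Conf.bound {K : Set E} {a x : Fin 75 → E} (C : Conf K a x) : False := by
  classical
  let e : Fin 3 → Fin 75 := fun t => Fin.castLE (by norm_num) t
  have he : Function.Injective e := Fin.castLE_injective _
  -- a functional constant on the three x's
  obtain ⟨h, h0, hh⟩ : ∃ h : E →L[ℝ] ℝ, h ≠ 0 ∧ ∀ t, h (x (e t)) = h (x (e 0)) := by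
    let L : (E →L[ℝ] ℝ) →ₗ[ℝ] (Fin 2 → ℝ) :=
      { toFun := fun f => ![f (x (e 1) - x (e 0)), f (x (e 2) - x (e 0))]
        map_add' := by intro f g; ext i; fin_cases i <;> simp <;> ring
        map_smul' := by intro c f; ext i; fin_cases i <;> simp }
    have hker : LinearMap.ker L ≠ ⊥ := by
      apply LinearMap.ker_ne_bot_of_finrank_lt
      have h1 : Module.finrank ℝ (E →L[ℝ] ℝ) = 3 := by
        rw [← (LinearMap.toContinuousLinearMap (E := E) (F' := ℝ) (𝕜 := ℝ)).finrank_eq]
        rw [Module.finrank_linearMap]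
        simp
      rw [h1]
      simp
    obtain ⟨h, hk, h0⟩ := (Submodule.ne_bot_iff _).mp hker
    rw [LinearMap.mem_ker] at hk
    refine ⟨h, h0, ?_⟩
    intro t
    have e1 : h (x (e 1) - x (e 0)) = 0 := congrFun hk 0
    have e2 : h (x (e 2) - x (e 0)) = 0 := congrFun hk 1
    rw [map_sub, sub_eq_zero] at e1 e2
    fin_cases t
    · rfl
    · exact e1
    · exact e2
  set c := h (x (e 0)) with hc
  set I : Finset (Fin 75) := Finset.univ.filter (fun i => ∀ t, e t ≠ i) with hI
  have hIcard : 72 ≤ I.card := by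
    have h1 : (Finset.univ \ I).card ≤ 3 := by
      have : Finset.univ \ I ⊆ Finset.univ.image e := by
        intro i hi
        simp only [hI, Finset.mem_sdiff, Finset.mem_univ, Finset.mem_filter, true_and, not_forall,
          not_not] at hi
        obtain ⟨t, ht⟩ := hi
        exact Finset.mem_image.mpr ⟨t, Finset.mem_univ _, ht⟩
      refine (Finset.card_le_card this).trans ?_
      refine Finset.card_image_le.trans ?_
      simp
    have h2 := Finset.card_sdiff_add_card_inter (Finset.univ : Finset (Fin 75)) I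
    rw [Finset.univ_inter] at h2
    have h3 : (Finset.univ : Finset (Fin 75)).card = 75 := by simp
    omega
  have hpart : I.card = (I.filter (fun i => h (a i) < c)).card + (I.filter (fun i => h (a i) = c)).card
      + (I.filter (fun i => c < h (a i))).card := by
    have h1 := Finset.card_filter_add_card_filter_not (s := I) (fun i => h (a i) < c)
    have h2 := Finset.card_filter_add_card_filter_not (s := I.filter (fun i => ¬ h (a i) < c)) (fun i => h (a i) = c)
    have h3 : (I.filter (fun i => ¬ h (a i) < c)).filter (fun i => h (a i) = c) = I.filter (fun i => h (a i) = c) := by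
      ext i
      simp only [Finset.mem_filter]
      constructor
      · rintro ⟨⟨h1, h2⟩, h3⟩; exact ⟨h1, h3⟩
      · rintro ⟨h1, h3⟩; exact ⟨⟨h1, by rw [h3]; exact lt_irrefl _⟩, h3⟩
    have h4 : (I.filter (fun i => ¬ h (a i) < c)).filter (fun i => ¬ h (a i) = c) = I.filter (fun i => c < h (a i)) := by
      ext i
      simp only [Finset.mem_filter]
      constructor
      · rintro ⟨⟨h1, h2⟩, h3⟩
        exact ⟨h1, lt_of_le_of_ne (not_lt.mp h2) (Ne.symm h3)⟩
      · rintro ⟨h1, h3⟩; exact ⟨⟨h1, not_lt.mpr h3.le⟩, h3.ne'⟩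
    rw [h3, h4] at h2
    omega
  have b0 : (I.filter (fun i => h (a i) = c)).card ≤ 7 := by
    apply C.plane_le e he h h0 c hh
    intro i hi
    simp only [hI, Finset.mem_filter, Finset.mem_univ, true_and] at hi
    exact hi
  have bside : ∀ S : Finset (Fin 75), S ⊆ I →
      (∀ i ∈ S, ∀ j ∈ S, 0 < (h (a i) - c) * (h (a j) - c)) → S.card ≤ 32 := by
    intro S hSI hS
    apply C.swap.pairwise_le S
    intro i hi j hj _
    have hi' := hSI hi
    have hj' := hSI hj
    simp only [hI, Finset.mem_filter, Finset.mem_univ, true_and] at hi' hj'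
    obtain ⟨w1, w2, u, f, n1, n2, s1, s2, s3, f0, f1, f2, f3⟩ := C.side i j e he hi' hj' h c hh (hS i hi j hj)
    exact ⟨f, f0, f1, f2⟩
  have b1 := bside (I.filter (fun i => h (a i) < c)) (Finset.filter_subset _ _) (by
    intro i hi j hj
    simp only [Finset.mem_filter] at hi hj
    exact mul_pos_of_neg_of_neg (by linarith [hi.2]) (by linarith [hj.2]))
  have b2 := bside (I.filter (fun i => c < h (a i))) (Finset.filter_subset _ _) (by
    intro i hi j hj
    simp only [Finset.mem_filter] at hi hj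
    exact mul_pos (by linarith [hi.2]) (by linarith [hj.2]))
  omega

end Pool.Agent.TH586.Illum
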