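import Pool.Agent.TH956.Main

set_option autoImplicit false
set_option linter.unusedSectionVars false

/-!
# A homogeneous pattern in fields of characteristic zero
-/

namespace Pool.Agent.TH586

open Finset Polynomial

section
variable {F : Type} [Field F] [CharZero F]

/-- Letters such that the colour of a product depends only on the number of factors. -/
theorem letters_card {κ : Type} [Finite κ] (c : F → κ) (hc : ∀ x, c x = c 0 → x = 0)
    (P : Finset F[X]) (hP : ∀ f ∈ P, f.eval 0 = 0) (hX : X ∈ P) (s : ℕ) :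
    ∃ v : ℕ → F, (∀ i, v i ≠ 0) ∧
      (∀ I ⊆ range s, c (∏ i ∈ I, v i) = c (∏ i ∈ range I.card, v i)) ∧
      ∀ l < s, ∀ k < l, ∀ B ⊆ range k, ∀ B' ⊆ range k, ∀ f ∈ P,
        c ((∏ i ∈ B, v i) * v l + f.eval ((∏ i ∈ B', v i) * v k)) = c ((∏ i ∈ B, v i) * v l) := by
  classical
  obtain ⟨n, hn⟩ := TH956.ram_all κ s s
  obtain ⟨u, hu0, hu⟩ := TH956.letters c hc P hP hX n
  obtain ⟨T, hTn, hTs, hT⟩ := hn (range n) (by simp) (fun B => c (∏ i ∈ B, u i))
  let e := T.orderEmbOfFin hTs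
  let h : ℕ → ℕ := fun i => if hi : i < s then e ⟨i, hi⟩ else 0
  have hh : ∀ i j, i < j → j < s → h i < h j := by
    intro i j hij hj
    simp only [h, dif_pos (hij.trans hj), dif_pos hj]
    exact e.strictMono (by simpa using hij)
  have hhT : ∀ i, i < s → h i ∈ T := by
    intro i hi
    simp only [h, dif_pos hi]
    exact T.orderEmbOfFin_mem hTs _
  have hinj : ∀ i j, i < s → j < s → h i = h j → i = j := by
    intro i j hi hj hij
    rcases lt_trichotomy i j with h1 | h1 | h1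
    · have := hh i j h1 hj; omega
    · exact h1
    · have := hh j i h1 hi; omega
  have hblock : ∀ I : Finset ℕ, I ⊆ range s → (I.image h) ⊆ T ∧ (I.image h).card = I.card ∧
      ∏ i ∈ I.image h, u i = ∏ i ∈ I, u (h i) := by
    intro I hI
    have hinj' : ∀ i ∈ I, ∀ j ∈ I, h i = h j → i = j := fun i hi j hj =>
      hinj i j (mem_range.1 (hI hi)) (mem_range.1 (hI hj))
    refine ⟨?_, card_image_of_injOn (fun i hi j hj => hinj' i hi j hj), prod_image hinj'⟩
    intro i hi
    obtain ⟨j, hj, rfl⟩ := mem_image.1 hi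
    exact hhT j (mem_range.1 (hI hj))
  refine ⟨fun i => u (h i), fun i => hu0 _, ?_, ?_⟩
  · intro I hI
    have hIs : I.card ≤ s := by simpa using card_le_card hI
    have hr : range I.card ⊆ range s := range_subset_range.2 hIs
    obtain ⟨h1, h2, h3⟩ := hblock I hI
    obtain ⟨h4, h5, h6⟩ := hblock (range I.card) hr
    have h7 := hT _ h1 _ h4 (by rw [h2, h5, card_range]) (by rw [h2]; exact hIs)
    rw [h3, h6] at h7
    exact h7
  · intro l hl k hk B hB B' hB' f hf
    have hk' : k < s := hk.trans hl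
    have hsub : ∀ B : Finset ℕ, B ⊆ range k → B.image h ⊆ range (h k) := by
      intro B hB i hi
      obtain ⟨j, hj, rfl⟩ := mem_image.1 hi
      exact mem_range.2 (hh j k (mem_range.1 (hB hj)) hk')
    have hsub' : ∀ B : Finset ℕ, B ⊆ range k → B ⊆ range s := fun B hB =>
      hB.trans (range_subset_range.2 hk'.le)
    have h1 := hu (h l) (mem_range.1 (hTn (hhT l hl))) (h k) (hh k l hk hl) (B.image h)
      (hsub B hB) (B'.image h) (hsub B' hB') f hf
    rw [(hblock B (hsub' B hB)).2.2, (hblock B' (hsub' B' hB')).2.2] at h1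
    exact h1

/-- The numbers `l, l b, l g, l (b + g), l b g` have the same colour. -/
theorem homog {κ : Type} [Finite κ] (c : F → κ) : ∃ l b g : F, l ≠ 0 ∧ b ≠ 0 ∧ g ≠ 0 ∧ b ≠ g ∧
    c (l * b) = c l ∧ c (l * g) = c l ∧ c (l * (b + g)) = c l ∧ c (l * (b * g)) = c l := by
  classical
  obtain ⟨s, hs⟩ := TH956.vdw_finite κ 2
  obtain ⟨v, hv0, hv, hvf⟩ := letters_card (fun x : F => (c x, (decide (x = 0) : Bool)))
    (fun x h => by simpa using (Prod.ext_iff.1 h).2) ({X, -X} : Finset F[X])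
    (fun f hf => by
      rcases mem_insert.1 hf with rfl | hf
      · simp
      · rw [mem_singleton] at hf
        subst hf
        simp) (mem_insert_self _ _) s
  obtain ⟨p, q, hp, hq, hpq, k0, hk0⟩ := hs (fun m => c (∏ i ∈ range m, v i))
  have e0 := hk0 0 (by omega)
  have e1 := hk0 1 (by omega)
  have e2 := hk0 2 (by omega)
  rw [mul_zero, add_zero] at e0
  rw [mul_one] at e1
  set I0 : Finset ℕ := range p with hI0
  set J1 : Finset ℕ := Ico p (p + q - 1) with hJ1
  set J2 : Finset ℕ := Ico (p + q - 1) (p + 2 * q - 2) with hJ2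
  set k : ℕ := p + 2 * q - 2 with hk
  set l : ℕ := p + 2 * q - 1 with hl
  have hls : l < s := by omega
  have hkl : k < l := by omega
  have hcol : ∀ I : Finset ℕ, I ⊆ range s → ∀ m : ℕ, I.card = m → c (∏ i ∈ range m, v i) = k0 →
      c (∏ i ∈ I, v i) = k0 := by
    intro I hI m hm h
    have h1 := (Prod.ext_iff.1 (hv I hI)).1
    rw [hm] at h1
    simp only at h1
    rw [h1, h]
  -- the sets
  have d1 : Disjoint I0 (insert k J1) := by
    rw [disjoint_left]
    intro i hi hi'
    simp only [hI0, hJ1, mem_insert, mem_range, mem_Ico] at hi hi'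
    omega
  have d2 : Disjoint I0 (insert l J2) := by
    rw [disjoint_left]
    intro i hi hi'
    simp only [hI0, hJ2, mem_insert, mem_range, mem_Ico] at hi hi'
    omega
  have d3 : Disjoint (insert k J1) (insert l J2) := by
    rw [disjoint_left]
    intro i hi hi'
    simp only [hJ1, hJ2, mem_insert, mem_Ico] at hi hi'
    omega
  have d4 : Disjoint I0 J1 := by
    rw [disjoint_left]
    intro i hi hi'
    simp only [hI0, hJ1, mem_range, mem_Ico] at hi hi'
    omega
  have d5 : Disjoint I0 J2 := by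
    rw [disjoint_left]
    intro i hi hi'
    simp only [hI0, hJ2, mem_range, mem_Ico] at hi hi'
    omega
  have nk : k ∉ J1 := by simp only [hJ1, mem_Ico]; omega
  have nl : l ∉ J2 := by simp only [hJ2, mem_Ico]; omega
  have c0 : I0.card = p := by rw [hI0, card_range]
  have c1 : (insert k J1).card = q := by
    rw [card_insert_of_notMem nk, hJ1, Nat.card_Ico]
    omega
  have c2 : (insert l J2).card = q := by
    rw [card_insert_of_notMem nl, hJ2, Nat.card_Ico]
    omega
  have s0 : I0 ⊆ range s := by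
    intro i hi
    simp only [hI0, mem_range] at hi ⊢
    omega
  have s1 : insert k J1 ⊆ range s := by
    intro i hi
    simp only [hJ1, mem_insert, mem_range, mem_Ico] at hi ⊢
    omega
  have s2 : insert l J2 ⊆ range s := by
    intro i hi
    simp only [hJ2, mem_insert, mem_range, mem_Ico] at hi ⊢
    omega
  set L : F := ∏ i ∈ I0, v i with hL
  set b : F := ∏ i ∈ insert k J1, v i with hb
  set g : F := ∏ i ∈ insert l J2, v i with hg
  have hL0 : L ≠ 0 := prod_ne_zero_iff.2 fun i _ => hv0 i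
  have hb0 : b ≠ 0 := prod_ne_zero_iff.2 fun i _ => hv0 i
  have hg0 : g ≠ 0 := prod_ne_zero_iff.2 fun i _ => hv0 i
  have r1 : L * b = ∏ i ∈ I0 ∪ insert k J1, v i := (prod_union d1).symm
  have r2 : L * g = ∏ i ∈ I0 ∪ insert l J2, v i := (prod_union d2).symm
  have r3 : L * (b * g) = ∏ i ∈ I0 ∪ (insert k J1 ∪ insert l J2), v i := by
    rw [prod_union (disjoint_union_right.2 ⟨d1, d2⟩), prod_union d3]
  have t1 : (∏ i ∈ I0 ∪ J1, v i) * v k = L * b := by
    rw [prod_union d4, hb, prod_insert nk]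
    ring
  have t2 : (∏ i ∈ I0 ∪ J2, v i) * v l = L * g := by
    rw [prod_union d5, hg, prod_insert nl]
    ring
  have hB1 : I0 ∪ J2 ⊆ range k := by
    intro i hi
    simp only [hI0, hJ2, mem_union, mem_range, mem_Ico] at hi ⊢
    omega
  have hB2 : I0 ∪ J1 ⊆ range k := by
    intro i hi
    simp only [hI0, hJ1, mem_union, mem_range, mem_Ico] at hi ⊢
    omega
  have hcL : c L = k0 := hcol I0 s0 p c0 e0
  have hcb : c (L * b) = k0 := by
    rw [r1]
    exact hcol _ (union_subset s0 s1) (p + q) (by rw [card_union_of_disjoint d1, c0, c1]) e1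
  have hcg : c (L * g) = k0 := by
    rw [r2]
    exact hcol _ (union_subset s0 s2) (p + q) (by rw [card_union_of_disjoint d2, c0, c2]) e1
  have hcbg : c (L * (b * g)) = k0 := by
    rw [r3]
    refine hcol _ (union_subset s0 (union_subset s1 s2)) (p + q * 2) ?_ e2
    rw [card_union_of_disjoint (disjoint_union_right.2 ⟨d1, d2⟩), card_union_of_disjoint d3,
      c0, c1, c2]
    ring
  have f1 := hvf l hls k hkl _ hB1 _ hB2 X (by simp)
  have f2 := hvf l hls k hkl _ hB1 _ hB2 (-X) (by simp)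
  rw [t1, t2] at f1 f2
  simp only [eval_X, eval_neg] at f1 f2
  refine ⟨L, b, g, hL0, hb0, hg0, ?_, ?_, ?_, ?_, ?_⟩
  · intro hbg
    have h2 := (Prod.ext_iff.1 f2).2
    rw [hbg] at h2
    simp [hL0, hg0] at h2
  · rw [hcb, hcL]
  · rw [hcg, hcL]
  · have h1 := (Prod.ext_iff.1 f1).1
    simp only at h1
    rw [mul_add, add_comm, h1, hcg, hcL]
  · rw [hcbg, hcL]

/-- The compact form of `homog`. -/
theorem homog_fin (κ : Type) [Finite κ] : ∃ T : Finset (F × F × F),
    (∀ t ∈ T, t.1 ≠ 0 ∧ t.2.1 ≠ 0 ∧ t.2.2 ≠ 0 ∧ t.2.1 ≠ t.2.2) ∧ ∀ c : F → κ, ∃ t ∈ T,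
      c (t.1 * t.2.1) = c t.1 ∧ c (t.1 * t.2.2) = c t.1 ∧ c (t.1 * (t.2.1 + t.2.2)) = c t.1 ∧
        c (t.1 * (t.2.1 * t.2.2)) = c t.1 := by
  classical
  let _ : TopologicalSpace κ := ⊥
  have : DiscreteTopology κ := ⟨rfl⟩
  have : CompactSpace κ := Finite.compactSpace
  set A : Set (F × F × F) := {t | t.1 ≠ 0 ∧ t.2.1 ≠ 0 ∧ t.2.2 ≠ 0 ∧ t.2.1 ≠ t.2.2} with hA
  have hopen : ∀ a b : F, IsOpen {c : F → κ | c a = c b} := by
    intro a b
    have h1 : Continuous (fun c : F → κ => (c a, c b)) := by fun_prop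
    have h2 : IsOpen {z : κ × κ | z.1 = z.2} := isOpen_discrete _
    exact h2.preimage h1
  set U : A → Set (F → κ) := fun t => {c | c (t.1.1 * t.1.2.1) = c t.1.1} ∩
    ({c | c (t.1.1 * t.1.2.2) = c t.1.1} ∩ ({c | c (t.1.1 * (t.1.2.1 + t.1.2.2)) = c t.1.1} ∩
      {c | c (t.1.1 * (t.1.2.1 * t.1.2.2)) = c t.1.1})) with hU
  obtain ⟨T, hT⟩ := isCompact_univ.elim_finite_subcover U
    (fun t => (hopen _ _).inter ((hopen _ _).inter ((hopen _ _).inter (hopen _ _))))
    (by
      intro c _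
      obtain ⟨l, b, g, hl, hb, hg, hbg, h1, h2, h3, h4⟩ := homog c
      exact Set.mem_iUnion.2 ⟨⟨(l, b, g), hl, hb, hg, hbg⟩, h1, h2, h3, h4⟩)
  refine ⟨T.image Subtype.val, ?_, ?_⟩
  · intro t ht
    obtain ⟨t, -, rfl⟩ := mem_image.1 ht
    exact t.2
  · intro c
    obtain ⟨t, ht, hct⟩ := Set.mem_iUnion₂.1 (hT (Set.mem_univ c))
    exact ⟨t.1, mem_image_of_mem _ ht, hct.1, hct.2.1, hct.2.2.1, hct.2.2.2⟩

end

end Pool.Agent.TH586
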