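import Pool.Agent.TH586.Geom
import Pool.Agent.TH586.Homog

set_option autoImplicit false
set_option linter.unusedSectionVars false

/-!
# Monochromatic shifts and dilates of `{b, c, b + c, b c}`
-/

namespace Pool.Agent.TH586

open Finset Polynomial

section
variable {F : Type} [Field F] [CharZero F]

/-- Shifts and dilates of `{b, c, b + c, b c}` in a field of characteristic zero. -/
theorem shift_dilate {κ : Type} [Finite κ] (χ : F → κ) : ∃ a b c : F,
    a ≠ 0 ∧ b ≠ 0 ∧ c ≠ 0 ∧ b ≠ c ∧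
    χ (a + c) = χ (a + b) ∧
    χ (a + (b + c)) = χ (a + b) ∧
    χ (a + b * c) = χ (a + b) ∧
    χ (a * b) = χ (a + b) ∧
    χ (a * c) = χ (a + b) ∧
    χ (a * (b + c)) = χ (a + b) ∧
    χ (a * (b * c)) = χ (a + b) := by
  classical
  obtain ⟨T, hT0, hT⟩ := homog_fin (F := F) κ
  -- multipliers
  set S : Finset F := T.image (fun t => t.1) ∪ (T.image (fun t => t.1 * t.2.1) ∪
    (T.image (fun t => t.1 * t.2.2) ∪ (T.image (fun t => t.1 * (t.2.1 + t.2.2)) ∪
      T.image (fun t => t.1 * (t.2.1 * t.2.2))))) with hS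
  set P : Finset F[X] := T.image (fun t => C (t.2.1 / t.1) * X) ∪
    (T.image (fun t => C (t.2.2 / t.1) * X) ∪ (T.image (fun t => C ((t.2.1 + t.2.2) / t.1) * X) ∪
      T.image (fun t => C (t.2.1 * t.2.2 / t.1) * X ^ 2))) with hP
  obtain ⟨x, y, hx, hy, h1, h2⟩ := geom 2 (fun x : F => (fun s : S => χ (s.1 * x))) P (by
    intro f hf
    simp only [hP, mem_union, mem_image] at hf
    rcases hf with ⟨t, -, rfl⟩ | ⟨t, -, rfl⟩ | ⟨t, -, rfl⟩ | ⟨t, -, rfl⟩ <;> simp)
  have h1' : ∀ j ≤ 2, ∀ s ∈ S, χ (s * (x * y ^ j)) = χ (s * x) := fun j hj s hs =>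
    congrFun (h1 j hj) ⟨s, hs⟩
  have h2' : ∀ f ∈ P, ∀ s ∈ S, χ (s * (x + f.eval y)) = χ (s * x) := by
    intro f hf s hs
    have h3 := congrFun (h2 0 (by omega) f hf) ⟨s, hs⟩
    simpa using h3
  obtain ⟨t, ht, k1, k2, k3, k4⟩ := hT (fun s => χ (s * x))
  obtain ⟨g1, g2, g3, g4⟩ := hT0 t ht
  obtain ⟨l, b, c⟩ := t
  simp only at k1 k2 k3 k4 g1 g2 g3 g4
  have m0 : l ∈ S := by
    rw [hS]; exact mem_union_left _ (mem_image.2 ⟨_, ht, rfl⟩)
  have m1 : l * b ∈ S := by
    rw [hS]; exact mem_union_right _ (mem_union_left _ (mem_image.2 ⟨_, ht, rfl⟩))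
  have m2 : l * c ∈ S := by
    rw [hS]
    exact mem_union_right _ (mem_union_right _ (mem_union_left _ (mem_image.2 ⟨_, ht, rfl⟩)))
  have m3 : l * (b + c) ∈ S := by
    rw [hS]
    exact mem_union_right _ (mem_union_right _ (mem_union_right _
      (mem_union_left _ (mem_image.2 ⟨_, ht, rfl⟩))))
  have m4 : l * (b * c) ∈ S := by
    rw [hS]
    exact mem_union_right _ (mem_union_right _ (mem_union_right _
      (mem_union_right _ (mem_image.2 ⟨_, ht, rfl⟩))))
  have p1 : C (b / l) * X ∈ P := by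
    rw [hP]; exact mem_union_left _ (mem_image.2 ⟨_, ht, rfl⟩)
  have p2 : C (c / l) * X ∈ P := by
    rw [hP]; exact mem_union_right _ (mem_union_left _ (mem_image.2 ⟨_, ht, rfl⟩))
  have p3 : C ((b + c) / l) * X ∈ P := by
    rw [hP]
    exact mem_union_right _ (mem_union_right _ (mem_union_left _ (mem_image.2 ⟨_, ht, rfl⟩)))
  have p4 : C (b * c / l) * X ^ 2 ∈ P := by
    rw [hP]
    exact mem_union_right _ (mem_union_right _ (mem_union_right _ (mem_image.2 ⟨_, ht, rfl⟩)))
  -- the common colour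
  have q1 : χ (l * x + b * y) = χ (l * x) := by
    rw [← h2' _ p1 _ m0]
    simp only [eval_mul, eval_C, eval_X]
    congr 1
    field_simp
  have q2 : χ (l * x + c * y) = χ (l * x) := by
    rw [← h2' _ p2 _ m0]
    simp only [eval_mul, eval_C, eval_X]
    congr 1
    field_simp
  have q3 : χ (l * x + (b * y + c * y)) = χ (l * x) := by
    rw [← h2' _ p3 _ m0]
    simp only [eval_mul, eval_C, eval_X]
    congr 1
    field_simp
  have q4 : χ (l * x + b * y * (c * y)) = χ (l * x) := by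
    rw [← h2' _ p4 _ m0]
    simp only [eval_mul, eval_C, eval_X, eval_pow]
    congr 1
    field_simp
  have q5 : χ (l * x * (b * y)) = χ (l * x) := by
    have := h1' 1 (by omega) _ m1
    rw [pow_one] at this
    rw [← k1, ← this]
    congr 1
    ring
  have q6 : χ (l * x * (c * y)) = χ (l * x) := by
    have := h1' 1 (by omega) _ m2
    rw [pow_one] at this
    rw [← k2, ← this]
    congr 1
    ring
  have q7 : χ (l * x * (b * y + c * y)) = χ (l * x) := by
    have := h1' 1 (by omega) _ m3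
    rw [pow_one] at this
    rw [← k3, ← this]
    congr 1
    ring
  have q8 : χ (l * x * (b * y * (c * y))) = χ (l * x) := by
    have := h1' 2 (by omega) _ m4
    rw [← k4, ← this]
    congr 1
    ring
  refine ⟨l * x, b * y, c * y, mul_ne_zero g1 hx, mul_ne_zero g2 hy, mul_ne_zero g3 hy,
    fun h => g4 (mul_right_cancel₀ hy h), ?_, ?_, ?_, ?_, ?_, ?_, ?_⟩
  · rw [q2, q1]
  · rw [q3, q1]
  · rw [q4, q1]
  · rw [q5, q1]
  · rw [q6, q1]
  · rw [q7, q1]
  · rw [q8, q1]

end

end Pool.Agent.TH586
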