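import Mathlib
import Pool.Agent.H172R2.GS.HAM

/-! Spencer's theorem, part 1: moments, counting, partial colouring -/

set_option autoImplicit false

open Finset

namespace Pool.Agent.TH586.Sp

open Pool.Agent.H172R2.GS (sg)

theorem exp_moment (J : Type) [Fintype J] [DecidableEq J] (f : J → ℝ) (hf : ∀ g, |f g| ≤ 1)
    (t : ℝ) : ∑ ε : J → Bool, Real.exp (t * ∑ g, sg (ε g) * f g) ≤
      2 ^ (Fintype.card J) * Real.exp (t ^ 2 * Fintype.card J / 2) := by
  have h1 : ∀ ε : J → Bool, Real.exp (t * ∑ g, sg (ε g) * f g) =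
      ∏ g, Real.exp (t * (sg (ε g) * f g)) := by
    intro ε
    rw [Finset.mul_sum, Real.exp_sum]
  simp only [h1]
  have h2 : ∑ ε : J → Bool, ∏ g, Real.exp (t * (sg (ε g) * f g)) =
      ∏ g, ∑ b : Bool, Real.exp (t * (sg b * f g)) := by
    rw [Finset.prod_univ_sum, Fintype.piFinset_univ]
  rw [h2]
  have h3 : ∀ g ∈ (univ : Finset J), ∑ b : Bool, Real.exp (t * (sg b * f g)) ≤ 2 * Real.exp (t ^ 2 / 2) := by
    intro g _
    have : ∑ b : Bool, Real.exp (t * (sg b * f g)) = 2 * Real.cosh (t * f g) := by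
      rw [Real.cosh_eq]
      simp [sg]
      ring
    rw [this]
    have h4 := Real.cosh_le_exp_half_sq (t * f g)
    have h5 : (t * f g) ^ 2 ≤ t ^ 2 := by
      have : (f g) ^ 2 ≤ 1 := (sq_le_one_iff_abs_le_one _).mpr (hf g)
      nlinarith [sq_nonneg t]
    have h6 : Real.exp ((t * f g) ^ 2 / 2) ≤ Real.exp (t ^ 2 / 2) := Real.exp_le_exp.mpr (by linarith)
    linarith
  refine (Finset.prod_le_prod (fun g _ => Finset.sum_nonneg fun b _ => (Real.exp_pos _).le) h3).trans ?_
  rw [Finset.prod_const, mul_pow, ← Real.exp_nat_mul, Finset.card_univ]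
  apply le_of_eq
  congr 2
  ring

theorem round_bound (y a : ℝ) (ha : 1 ≤ a) :
    |((round y : ℤ) : ℝ)| ≤ Real.exp (-a) * (Real.exp (2 * a * y) + Real.exp (-(2 * a * y))) := by
  by_cases h : |y| < 1 / 2
  · have h0 : round y = 0 := by
      rw [round_eq_zero_iff]
      rw [abs_lt] at h
      exact ⟨by linarith [h.1], by linarith [h.2]⟩
    rw [h0]
    simp only [Int.cast_zero, abs_zero]
    positivity
  · push Not at h
    have h1 : |((round y : ℤ) : ℝ)| ≤ 2 * |y| := by
      have h2 := abs_sub_round y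
      have h3 : |((round y : ℤ) : ℝ)| ≤ |y| + |y - round y| := by
        have : ((round y : ℤ) : ℝ) = y - (y - round y) := by ring
        calc |((round y : ℤ) : ℝ)| = |y - (y - round y)| := by rw [← this]
          _ ≤ |y| + |y - round y| := abs_sub _ _
      linarith
    have h2 : 2 * |y| ≤ Real.exp (2 * |y| - 1) := by
      have := Real.add_one_le_exp (2 * |y| - 1)
      linarith
    have h3 : Real.exp (2 * |y| - 1) ≤ Real.exp (a * (2 * |y| - 1)) := by
      apply Real.exp_le_exp.mpr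
      nlinarith
    have h4 : Real.exp (a * (2 * |y| - 1)) = Real.exp (-a) * Real.exp (2 * a * |y|) := by
      rw [← Real.exp_add]; congr 1; ring
    have h5 : Real.exp (2 * a * |y|) ≤ Real.exp (2 * a * y) + Real.exp (-(2 * a * y)) := by
      rcases abs_cases y with ⟨h, _⟩ | ⟨h, _⟩
      · rw [h]; linarith [Real.exp_pos (-(2 * a * y))]
      · rw [h]
        have : 2 * a * -y = -(2 * a * y) := by ring
        rw [this]; linarith [Real.exp_pos (2 * a * y)]
    calc |((round y : ℤ) : ℝ)| ≤ 2 * |y| := h1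
      _ ≤ _ := h2
      _ ≤ _ := h3
      _ = _ := h4
      _ ≤ _ := mul_le_mul_of_nonneg_left h5 (Real.exp_pos _).le

theorem geo (ρ : ℝ) (h0 : 0 < ρ) (h1 : ρ ≤ 1 / 400) (B : ℕ) :
    ∑ j ∈ Icc (-(B : ℤ)) B, ρ ^ j.natAbs ≤ 1 + 3 * ρ := by
  have key : ∑ j ∈ Icc (-(B : ℤ)) B, ρ ^ j.natAbs = 1 + 2 * (ρ - ρ ^ (B + 1)) / (1 - ρ) := by
    induction B with
    | zero => simp
    | succ B ih =>
      have hs : Icc (-((B + 1 : ℕ) : ℤ)) ((B + 1 : ℕ) : ℤ) =
          insert ((B + 1 : ℕ) : ℤ) (insert (-((B + 1 : ℕ) : ℤ)) (Icc (-(B : ℤ)) B)) := by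
        ext j
        simp only [mem_Icc, mem_insert]
        push_cast
        omega
      rw [hs, sum_insert, sum_insert, ih]
      · have h2 : (1 - ρ) ≠ 0 := by linarith
        have e1 : (((B + 1 : ℕ) : ℤ)).natAbs = B + 1 := by omega
        have e2 : (-((B + 1 : ℕ) : ℤ)).natAbs = B + 1 := by omega
        rw [e1, e2]
        field_simp
        ring
      · simp only [mem_Icc]; push_cast; omega
      · simp only [mem_Icc, mem_insert]; push_cast; omega
  rw [key]
  have h2 : 0 < 1 - ρ := by linarith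
  have h3 : 2 * (ρ - ρ ^ (B + 1)) / (1 - ρ) ≤ 3 * ρ := by
    rw [div_le_iff₀ h2]
    have : 0 < ρ ^ (B + 1) := by positivity
    nlinarith
  linarith

/-- number of integer arrays with small `ℓ¹` norm -/
theorem count (n B : ℕ) (s Q : ℝ) (hs : 0 < s) (hρ : Real.exp (-s) ≤ 1 / 400) :
    (((Fintype.piFinset fun _ : Fin n => Icc (-(B : ℤ)) B).filter
      (fun b => ((∑ k, (b k).natAbs : ℕ) : ℝ) ≤ Q)).card : ℝ) ≤
      Real.exp (s * Q) * Real.exp (3 * Real.exp (-s) * n) := by
  set T := (Fintype.piFinset fun _ : Fin n => Icc (-(B : ℤ)) B).filter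
      (fun b => ((∑ k, (b k).natAbs : ℕ) : ℝ) ≤ Q) with hT
  set ρ := Real.exp (-s) with hρd
  have hρ0 : 0 < ρ := Real.exp_pos _
  have h1 : (T.card : ℝ) * Real.exp (-(s * Q)) ≤ ∑ b ∈ T, ρ ^ (∑ k, (b k).natAbs) := by
    rw [← nsmul_eq_mul]
    apply Finset.card_nsmul_le_sum
    intro b hb
    have hb' := (mem_filter.mp hb).2
    rw [hρd, ← Real.exp_nat_mul]
    apply Real.exp_le_exp.mpr
    nlinarith
  have h2 : ∑ b ∈ T, ρ ^ (∑ k, (b k).natAbs) ≤
      ∑ b ∈ Fintype.piFinset fun _ : Fin n => Icc (-(B : ℤ)) B, ∏ k, ρ ^ (b k).natAbs := by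
    refine (Finset.sum_le_sum_of_subset_of_nonneg (filter_subset _ _) (fun b _ _ => by positivity)).trans ?_
    apply le_of_eq
    apply Finset.sum_congr rfl
    intro b _
    rw [Finset.prod_pow_eq_pow_sum]
  have h3 : ∑ b ∈ Fintype.piFinset fun _ : Fin n => Icc (-(B : ℤ)) B, ∏ k, ρ ^ (b k).natAbs =
      ∏ k : Fin n, ∑ j ∈ Icc (-(B : ℤ)) B, ρ ^ j.natAbs := by
    rw [Finset.prod_univ_sum]
  have h4 : ∏ k : Fin n, ∑ j ∈ Icc (-(B : ℤ)) B, ρ ^ j.natAbs ≤ Real.exp (3 * ρ * n) := by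
    rw [Finset.prod_const, Finset.card_univ, Fintype.card_fin]
    have h5 := geo ρ hρ0 hρ B
    have h6 : 1 + 3 * ρ ≤ Real.exp (3 * ρ) := by
      have := Real.add_one_le_exp (3 * ρ)
      linarith
    have h7 : (∑ j ∈ Icc (-(B : ℤ)) B, ρ ^ j.natAbs) ^ n ≤ (Real.exp (3 * ρ)) ^ n :=
      pow_le_pow_left₀ (Finset.sum_nonneg fun j _ => by positivity) (h5.trans h6) n
    rw [← Real.exp_nat_mul] at h7
    refine h7.trans (le_of_eq ?_)
    congr 1; ring
  have h5 : (T.card : ℝ) * Real.exp (-(s * Q)) ≤ Real.exp (3 * ρ * n) := h1.trans (h2.trans (h3.le.trans h4))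
  have h6 : (T.card : ℝ) = Real.exp (s * Q) * ((T.card : ℝ) * Real.exp (-(s * Q))) := by
    rw [mul_comm (T.card : ℝ), ← mul_assoc, ← Real.exp_add]
    simp
  rw [h6]
  exact mul_le_mul_of_nonneg_left h5 (Real.exp_pos _).le

/-- the scale -/
noncomputable def lam (m n : ℕ) : ℝ := 2 * Real.sqrt (m * Real.log (400 * n / m))

/-- partial colouring -/
theorem partial_col (J : Type) [Fintype J] [DecidableEq J] (n : ℕ) (F : J → Fin n → ℝ)
    (hF : ∀ g k, |F g k| ≤ 1) (hJ : 4 ≤ Fintype.card J) (hJn : Fintype.card J ≤ n) :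
    ∃ x : J → ℝ, (∀ g, x g = 0 ∨ x g = 1 ∨ x g = -1) ∧
      (Fintype.card J : ℝ) ≤ 10 * ((univ.filter fun g => x g ≠ 0).card : ℝ) ∧
      ∀ k, |∑ g, x g * F g k| ≤ lam (Fintype.card J) n := by
  classical
  set m := Fintype.card J with hm
  have hm0 : (0 : ℝ) < m := by exact_mod_cast (by omega : 0 < m)
  have hn0 : (0 : ℝ) < n := by exact_mod_cast (by omega : 0 < n)
  have hmn : (m : ℝ) ≤ n := by exact_mod_cast hJn
  set s := Real.log (400 * n / m) with hs
  have hq : (400 : ℝ) ≤ 400 * n / m := by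
    rw [le_div_iff₀ hm0]; nlinarith
  have hs4 : (5 : ℝ) ≤ s := by
    rw [hs, Real.le_log_iff_exp_le (by linarith)]
    have : Real.exp 5 ≤ 400 := by
      have h1 : Real.exp 1 < 2.7182818286 := Real.exp_one_lt_d9
      have h2 : Real.exp 5 = (Real.exp 1) ^ 5 := by rw [← Real.exp_nat_mul]; norm_num
      rw [h2]
      have h3 : (Real.exp 1) ^ 5 ≤ (2.7182818286 : ℝ) ^ 5 := pow_le_pow_left₀ (Real.exp_pos _).le h1.le 5
      refine h3.trans ?_
      norm_num
    linarith
  have hexps : Real.exp (-s) = m / (400 * n) := by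
    rw [hs, Real.exp_neg, Real.exp_log (by linarith), inv_div]
  set lm := lam m n with hlm
  have hlm2 : lm ^ 2 = 4 * m * s := by
    rw [hlm, lam, mul_pow, Real.sq_sqrt (by positivity)]
    ring
  have hlm0 : 0 < lm := by
    rw [hlm, lam]
    have : 0 < (m : ℝ) * s := by positivity
    positivity
  -- row sums
  let S : (J → Bool) → Fin n → ℝ := fun ε k => ∑ g, sg (ε g) * F g k
  let b : (J → Bool) → Fin n → ℤ := fun ε k => round (S ε k / (2 * lm))
  set a : ℝ := 4 * s with ha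
  -- the mean
  have hmean1 : ∀ k, ∑ ε : J → Bool, |((b ε k : ℤ) : ℝ)| ≤ 2 ^ m * (2 * (Real.exp (-s)) ^ 2) := by
    intro k
    have h1 : ∀ ε ∈ (univ : Finset (J → Bool)), |((b ε k : ℤ) : ℝ)| ≤
        Real.exp (-a) * (Real.exp ((a / lm) * S ε k) + Real.exp ((-(a / lm)) * S ε k)) := by
      intro ε _
      have h2 := round_bound (S ε k / (2 * lm)) a (by linarith)
      have e1 : 2 * a * (S ε k / (2 * lm)) = (a / lm) * S ε k := by field_simp
      rw [e1] at h2
      rw [neg_mul]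
      exact h2
    refine (Finset.sum_le_sum h1).trans ?_
    rw [← Finset.mul_sum, Finset.sum_add_distrib]
    have h3 := exp_moment J (fun g => F g k) (fun g => hF g k) (a / lm)
    have h4 := exp_moment J (fun g => F g k) (fun g => hF g k) (-(a / lm))
    rw [neg_sq] at h4
    have h5 : (a / lm) ^ 2 * m / 2 = 2 * s := by
      rw [div_pow, hlm2, ha]
      field_simp
      ring
    rw [← hm, h5] at h3 h4
    have h6 : ∑ ε : J → Bool, Real.exp (a / lm * S ε k) + ∑ ε : J → Bool, Real.exp (-(a / lm) * S ε k) ≤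
        2 * (2 ^ m * Real.exp (2 * s)) := by
      have := add_le_add h3 h4
      linarith
    refine (mul_le_mul_of_nonneg_left h6 (Real.exp_pos _).le).trans (le_of_eq ?_)
    have h7 : Real.exp (-a) * Real.exp (2 * s) = (Real.exp (-s)) ^ 2 := by
      rw [← Real.exp_add, ← Real.exp_nat_mul]
      congr 1
      rw [ha]; push_cast; ring
    calc Real.exp (-a) * (2 * (2 ^ m * Real.exp (2 * s))) =
        2 ^ m * (2 * (Real.exp (-a) * Real.exp (2 * s))) := by ring
      _ = _ := by rw [h7]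
  let G : (J → Bool) → ℕ := fun ε => ∑ k, (b ε k).natAbs
  have hG : ∀ ε, ((G ε : ℕ) : ℝ) = ∑ k, |((b ε k : ℤ) : ℝ)| := by
    intro ε
    simp only [G]
    push_cast
    apply Finset.sum_congr rfl
    intro k _
    rw [Nat.cast_natAbs]
    simp
  have hmean : ∑ ε : J → Bool, ((G ε : ℕ) : ℝ) ≤ n * (2 ^ m * (2 * (Real.exp (-s)) ^ 2)) := by
    simp only [hG]
    rw [Finset.sum_comm]
    calc ∑ k, ∑ ε : J → Bool, |((b ε k : ℤ) : ℝ)| ≤ ∑ k : Fin n, 2 ^ m * (2 * (Real.exp (-s)) ^ 2) :=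
          Finset.sum_le_sum fun k _ => hmean1 k
      _ = _ := by simp
  set Q : ℝ := 4 * n * (Real.exp (-s)) ^ 2 with hQ
  have hQ0 : 0 < Q := by positivity
  -- Markov
  set Eg := (univ : Finset (J → Bool)).filter (fun ε => ((G ε : ℕ) : ℝ) ≤ Q) with hEg
  have hEgc : (2 : ℝ) ^ m / 2 ≤ Eg.card := by
    set Eb := (univ : Finset (J → Bool)).filter (fun ε => ¬ ((G ε : ℕ) : ℝ) ≤ Q) with hEb
    have h1 : (Eb.card : ℝ) * Q ≤ ∑ ε : J → Bool, ((G ε : ℕ) : ℝ) := by
      have h2 : (Eb.card : ℝ) * Q ≤ ∑ ε ∈ Eb, ((G ε : ℕ) : ℝ) := by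
        rw [← nsmul_eq_mul]
        apply Finset.card_nsmul_le_sum
        intro ε hε
        exact (not_le.mp (mem_filter.mp hε).2).le
      exact h2.trans (Finset.sum_le_sum_of_subset_of_nonneg (subset_univ _) (fun ε _ _ => by positivity))
    have h3 : (Eb.card : ℝ) * Q ≤ (2 ^ m / 2) * Q := by
      refine (h1.trans hmean).trans (le_of_eq ?_)
      rw [hQ]; ring
    have h4 : (Eb.card : ℝ) ≤ 2 ^ m / 2 := le_of_mul_le_mul_right h3 hQ0
    have h5 : Eg.card + Eb.card = 2 ^ m := by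
      have h6 := Finset.card_filter_add_card_filter_not (s := (univ : Finset (J → Bool)))
        (fun ε => ((G ε : ℕ) : ℝ) ≤ Q)
      rw [hEg, hEb, h6, Finset.card_univ, Fintype.card_fun, Fintype.card_bool]
    have h7 : (Eg.card : ℝ) + Eb.card = 2 ^ m := by exact_mod_cast h5
    linarith
  -- a common bound for the entries
  obtain ⟨B, hB⟩ : ∃ B : ℕ, ∀ ε k, (b ε k).natAbs ≤ B :=
    ⟨∑ ε, ∑ k, (b ε k).natAbs, fun ε k =>
      (Finset.single_le_sum (f := fun k => (b ε k).natAbs) (fun _ _ => Nat.zero_le _) (mem_univ k)).trans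
        (Finset.single_le_sum (f := fun ε => ∑ k, (b ε k).natAbs) (fun _ _ => Nat.zero_le _) (mem_univ ε))⟩
  set T := (Fintype.piFinset fun _ : Fin n => Icc (-(B : ℤ)) B).filter
      (fun b => ((∑ k, (b k).natAbs : ℕ) : ℝ) ≤ Q) with hT
  have hmaps : ∀ ε ∈ Eg, b ε ∈ T := by
    intro ε hε
    rw [hT, mem_filter]
    refine ⟨?_, (mem_filter.mp hε).2⟩
    rw [Fintype.mem_piFinset]
    intro k
    have := hB ε k
    rw [mem_Icc]
    omega
  have hTc : (T.card : ℝ) ≤ Real.exp (m / 50) := by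
    refine (count n B s Q (by linarith) (by
      rw [hexps, div_le_div_iff₀ (by positivity) (by norm_num)]
      nlinarith)).trans ?_
    rw [← Real.exp_add]
    apply Real.exp_le_exp.mpr
    have h1 : s * Real.exp (-s) ≤ 1 := by
      have h2 : s ≤ Real.exp s := by
        have := Real.add_one_le_exp s
        linarith
      have h3 : Real.exp s * Real.exp (-s) = 1 := by rw [← Real.exp_add]; simp
      calc s * Real.exp (-s) ≤ Real.exp s * Real.exp (-s) :=
            mul_le_mul_of_nonneg_right h2 (Real.exp_pos _).le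
        _ = 1 := h3
    have h4 : s * Q = (s * Real.exp (-s)) * (4 * n * Real.exp (-s)) := by rw [hQ]; ring
    have h5 : 4 * n * Real.exp (-s) = m / 100 := by
      rw [hexps]; field_simp; norm_num
    have h6 : 3 * Real.exp (-s) * n = 3 * m / 400 := by
      rw [hexps]; field_simp
    rw [h4, h5, h6]
    have h7 : s * Real.exp (-s) * (m / 100) ≤ 1 * (m / 100) :=
      mul_le_mul_of_nonneg_right h1 (by positivity)
    linarith
  have hTne : T.Nonempty := by
    by_contra hcon
    rw [Finset.not_nonempty_iff_eq_empty] at hcon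
    have : Eg = ∅ := by
      rw [Finset.eq_empty_iff_forall_notMem]
      intro ε hε
      have := hmaps ε hε
      rw [hcon] at this
      simp at this
    rw [this] at hEgc
    simp only [card_empty, Nat.cast_zero] at hEgc
    have : (0 : ℝ) < 2 ^ m / 2 := by positivity
    linarith
  obtain ⟨b0, hb0, hfib⟩ := Finset.exists_le_card_fiber_of_nsmul_le_card_of_maps_to
    (s := Eg) (t := T) (f := b) (b := ((2 : ℝ) ^ m / 2 * Real.exp (-(m : ℝ) / 50))) hmaps hTne (by
      rw [nsmul_eq_mul]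
      calc (T.card : ℝ) * (2 ^ m / 2 * Real.exp (-(m : ℝ) / 50)) ≤
          Real.exp (m / 50) * (2 ^ m / 2 * Real.exp (-(m : ℝ) / 50)) :=
            mul_le_mul_of_nonneg_right hTc (by positivity)
        _ = (2 ^ m / 2) * (Real.exp (m / 50) * Real.exp (-(m : ℝ) / 50)) := by ring
        _ = 2 ^ m / 2 := by rw [← Real.exp_add]; ring_nf; simp
        _ ≤ _ := hEgc)
  obtain ⟨p, hp, q, hq', hpq⟩ := Pool.Agent.H172R2.GS.HAM_ok J (Eg.filter (fun x => b x = b0)) hJ hfib
  have hbp : b p = b0 := (mem_filter.mp hp).2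
  have hbq : b q = b0 := (mem_filter.mp hq').2
  refine ⟨fun g => (sg (p g) - sg (q g)) / 2, ?_, ?_, ?_⟩
  · intro g
    show (sg (p g) - sg (q g)) / 2 = 0 ∨ (sg (p g) - sg (q g)) / 2 = 1 ∨ (sg (p g) - sg (q g)) / 2 = -1
    rcases Bool.eq_false_or_eq_true (p g) with h1 | h1 <;>
      rcases Bool.eq_false_or_eq_true (q g) with h2 | h2 <;> rw [h1, h2] <;> (simp [sg]; try norm_num)
  · have : (univ.filter fun g => (sg (p g) - sg (q g)) / 2 ≠ 0) = univ.filter fun g => p g ≠ q g := by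
      ext g
      simp only [mem_filter, mem_univ, true_and]
      rcases Bool.eq_false_or_eq_true (p g) with h1 | h1 <;>
        rcases Bool.eq_false_or_eq_true (q g) with h2 | h2 <;> rw [h1, h2] <;> (simp [sg]; try norm_num)
    rw [this]
    exact hpq
  · intro k
    have h1 : ∑ g, (sg (p g) - sg (q g)) / 2 * F g k = (S p k - S q k) / 2 := by
      simp only [S]
      rw [← Finset.sum_sub_distrib, Finset.sum_div]
      apply Finset.sum_congr rfl
      intro g _
      ring
    rw [h1]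
    have h2 : round (S p k / (2 * lm)) = round (S q k / (2 * lm)) := by
      have := congrFun (hbp.trans hbq.symm) k
      exact this
    have h3 := abs_sub_round (S p k / (2 * lm))
    have h4 := abs_sub_round (S q k / (2 * lm))
    rw [h2] at h3
    have h5 : |S p k / (2 * lm) - S q k / (2 * lm)| ≤ 1 := by
      have : S p k / (2 * lm) - S q k / (2 * lm) = (S p k / (2 * lm) - round (S q k / (2 * lm))) -
          (S q k / (2 * lm) - round (S q k / (2 * lm))) := by ring
      rw [this]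
      refine (abs_sub _ _).trans ?_
      linarith
    have h6 : (S p k - S q k) / 2 = lm * (S p k / (2 * lm) - S q k / (2 * lm)) := by
      field_simp
    rw [h6, abs_mul, abs_of_pos hlm0]
    nlinarith

end Pool.Agent.TH586.Sp
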