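import Mathlib
import Pool.Agent.TH586.Sp1
import Pool.Agent.Tus.L_lsv

/-! Spencer's theorem, part 2: full colouring -/

set_option autoImplicit false

open Finset

namespace Pool.Agent.TH586.Sp

/-- `(n m)^{1/4}` -/
noncomputable def qq (n m : ℕ) : ℝ := Real.sqrt (Real.sqrt (n * m))

theorem qq_nonneg (n m : ℕ) : 0 ≤ qq n m := Real.sqrt_nonneg _

theorem lam_le (m n : ℕ) (hm : 0 < m) (hmn : m ≤ n) : lam m n ≤ 5 * qq n m := by
  have hm0 : (0 : ℝ) < m := by exact_mod_cast hm
  have hn0 : (0 : ℝ) < n := by exact_mod_cast (by omega : 0 < n)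
  have hmn' : (m : ℝ) ≤ n := by exact_mod_cast hmn
  set y := Real.sqrt (n / m) with hy
  have hy2 : y ^ 2 = n / m := Real.sq_sqrt (by positivity)
  have hy1 : 1 ≤ y := by
    rw [hy, Real.one_le_sqrt, le_div_iff₀ hm0]; linarith
  have hlog : Real.log (400 * n / m) ≤ 6 * y := by
    have e1 : (400 : ℝ) * n / m = 400 * y ^ 2 := by rw [hy2]; ring
    rw [e1, Real.log_mul (by norm_num) (by positivity), Real.log_pow]
    have h1 : Real.log 400 ≤ 6 := by
      rw [Real.log_le_iff_le_exp (by norm_num)]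
      have h2 : Real.exp 6 = (Real.exp 1) ^ 6 := by rw [← Real.exp_nat_mul]; norm_num
      rw [h2]
      have h3 : (2.7182818283 : ℝ) ^ 6 ≤ (Real.exp 1) ^ 6 :=
        pow_le_pow_left₀ (by norm_num) Real.exp_one_gt_d9.le 6
      refine le_trans ?_ h3
      norm_num
    have h2 : Real.log y ≤ y - 1 := Real.log_le_sub_one_of_pos (by linarith)
    push_cast
    linarith
  have hs : Real.sqrt (n * m) = m * y := by
    rw [hy]
    have : (n : ℝ) * m = m ^ 2 * (n / m) := by field_simp
    rw [this, Real.sqrt_mul (by positivity), Real.sqrt_sq hm0.le]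
  have h1 : (m : ℝ) * Real.log (400 * n / m) ≤ (5 / 2 * qq n m) ^ 2 := by
    rw [mul_pow, qq, Real.sq_sqrt (Real.sqrt_nonneg _), hs]
    nlinarith
  unfold lam
  have h2 : Real.sqrt ((m : ℝ) * Real.log (400 * n / m)) ≤ 5 / 2 * qq n m :=
    Real.sqrt_le_iff.mpr ⟨by have := qq_nonneg n m; positivity, h1⟩
  linarith

theorem qq_step (n m m' : ℕ) (h : (m' : ℝ) ≤ 9 / 10 * m) : qq n m' ≤ 975 / 1000 * qq n m := by
  unfold qq
  have h1 : (n : ℝ) * m' ≤ ((975 / 1000) ^ 2) ^ 2 * (n * m) := by
    have h2 : (n : ℝ) * m' ≤ n * (9 / 10 * m) := mul_le_mul_of_nonneg_left h (by positivity)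
    have h3 : (0 : ℝ) ≤ n * m := by positivity
    nlinarith
  calc Real.sqrt (Real.sqrt (n * m')) ≤ Real.sqrt (Real.sqrt (((975 / 1000) ^ 2) ^ 2 * (n * m))) :=
        Real.sqrt_le_sqrt (Real.sqrt_le_sqrt h1)
    _ = Real.sqrt ((975 / 1000) ^ 2 * Real.sqrt (n * m)) := by
        rw [Real.sqrt_mul (by positivity), Real.sqrt_sq (by positivity)]
    _ = _ := by
        rw [Real.sqrt_mul (by positivity), Real.sqrt_sq (by positivity)]

theorem full (n : ℕ) : ∀ (m : ℕ), m ≤ n → ∀ (J : Type) [Fintype J] [DecidableEq J],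
    Fintype.card J = m → ∀ (F : J → Fin n → ℝ), (∀ g k, |F g k| ≤ 1) →
    ∃ ε : J → ℝ, (∀ g, ε g = 1 ∨ ε g = -1) ∧ ∀ k, |∑ g, ε g * F g k| ≤ 200 * qq n m + 3 := by
  intro m
  induction m using Nat.strong_induction_on with
  | _ m ih =>
    intro hmn J _ _ hJ F hF
    by_cases h4 : m < 4
    · refine ⟨fun _ => 1, fun _ => Or.inl rfl, fun k => ?_⟩
      have h1 : |∑ g, 1 * F g k| ≤ m := by
        refine (Finset.abs_sum_le_sum_abs _ _).trans ?_
        have : ∑ g : J, |1 * F g k| ≤ ∑ g : J, (1 : ℝ) := Finset.sum_le_sum fun g _ => by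
          rw [one_mul]; exact hF g k
        refine this.trans ?_
        simp [hJ]
      have h2 : (m : ℝ) ≤ 3 := by exact_mod_cast (by omega : m ≤ 3)
      have h3 := qq_nonneg n m
      linarith
    · push Not at h4
      obtain ⟨x, hx1, hx2, hx3⟩ := partial_col J n F hF (by omega) (by omega)
      rw [hJ] at hx2 hx3
      set J' := {g : J // x g = 0} with hJ'
      have hcard : Fintype.card J' + (univ.filter fun g => x g ≠ 0).card = m := by
        have h0 := Finset.card_filter_add_card_filter_not (s := (univ : Finset J)) (fun g => x g = 0)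
        rw [Finset.card_univ, hJ] at h0
        rw [Fintype.card_subtype]
        exact h0
      have hm' : ((Fintype.card J' : ℕ) : ℝ) ≤ 9 / 10 * m := by
        have : ((Fintype.card J' : ℕ) : ℝ) + ((univ.filter fun g => x g ≠ 0).card : ℝ) = m := by
          exact_mod_cast hcard
        linarith
      have hlt : Fintype.card J' < m := by
        have h0 : (0 : ℝ) < m := by exact_mod_cast (by omega : 0 < m)
        have : ((Fintype.card J' : ℕ) : ℝ) < m := by linarith
        exact_mod_cast this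
      obtain ⟨ε', hε1, hε2⟩ := ih (Fintype.card J') hlt (by omega) J' rfl (fun g => F g.1) (fun g k => hF _ _)
      refine ⟨fun g => if h : x g = 0 then ε' ⟨g, h⟩ else x g, ?_, ?_⟩
      · intro g
        by_cases h : x g = 0
        · simp only [h, dif_pos]
          exact hε1 _
        · simp only [h, dif_neg, not_false_eq_true]
          rcases hx1 g with h1 | h1
          · exact absurd h1 h
          · exact h1
      · intro k
        have hsplit : ∑ g, (if h : x g = 0 then ε' ⟨g, h⟩ else x g) * F g k =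
            ∑ g, x g * F g k + ∑ j : J', ε' j * F j.1 k := by
          have h1 : ∀ g, (if h : x g = 0 then ε' ⟨g, h⟩ else x g) * F g k =
              x g * F g k + (if h : x g = 0 then ε' ⟨g, h⟩ else 0) * F g k := by
            intro g
            by_cases h : x g = 0
            · simp [h]
            · simp [h]
          rw [Finset.sum_congr rfl (fun g _ => h1 g), Finset.sum_add_distrib]
          congr 1
          have h2 : ∑ g, (if h : x g = 0 then ε' ⟨g, h⟩ else 0) * F g k =
              ∑ g ∈ univ.filter (fun g => x g = 0), (if h : x g = 0 then ε' ⟨g, h⟩ else 0) * F g k := by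
            symm
            apply Finset.sum_subset (filter_subset _ _)
            intro g _ hg
            have : ¬ x g = 0 := by simpa using hg
            simp [this]
          rw [h2, Finset.sum_subtype (univ.filter (fun g => x g = 0)) (p := fun g => x g = 0)
            (fun g => by simp)]
          apply Finset.sum_congr rfl
          intro j _
          have := j.2
          simp [this]
        rw [hsplit]
        have e1 := hx3 k
        have e2 := hε2 k
        have e3 := lam_le m n (by omega) hmn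
        have e4 := qq_step n m (Fintype.card J') hm'
        have e5 := abs_add_le (∑ g, x g * F g k) (∑ j : J', ε' j * F j.1 k)
        linarith

theorem qq_self (n : ℕ) : qq n n = Real.sqrt n := by
  unfold qq
  rw [Real.sqrt_mul_self (by positivity)]

theorem qq_mono (n m : ℕ) (h : m ≤ n) : qq n m ≤ Real.sqrt n := by
  rw [← qq_self]
  unfold qq
  have : (m : ℝ) ≤ n := by exact_mod_cast h
  gcongr

/-- a fractional colouring with at most `n` fractional entries -/
theorem few_frac (n N : ℕ) (f : Fin N → Fin n → ℝ) :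
    ∃ x : Fin N → ℝ, (∀ i, |x i| ≤ 1) ∧ (∀ k, ∑ i, x i * f i k = 0) ∧
      (univ.filter fun i => |x i| < 1).card ≤ n := by
  classical
  set S : Set (Fin N → ℝ) := {x | (∀ i, |x i| ≤ 1) ∧ ∀ k, ∑ i, x i * f i k = 0} with hS
  have hne : S.Nonempty := ⟨0, fun i => by simp, fun k => by simp⟩
  have hcl : IsClosed S := by
    have h1 : IsClosed {x : Fin N → ℝ | ∀ i, |x i| ≤ 1} := by
      simp only [Set.ofPred_forall]
      exact isClosed_iInter fun i => isClosed_le (continuous_apply i).abs continuous_const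
    have h2 : IsClosed {x : Fin N → ℝ | ∀ k, ∑ i, x i * f i k = 0} := by
      simp only [Set.ofPred_forall]
      exact isClosed_iInter fun k => isClosed_eq
        (continuous_finsetSum _ fun i _ => (continuous_apply i).mul continuous_const) continuous_const
    exact h1.inter h2
  have hcpt : IsCompact S := by
    apply (isCompact_closedBall (0 : Fin N → ℝ) 1).of_isClosed_subset hcl
    intro x hx
    rw [mem_closedBall_zero_iff, pi_norm_le_iff_of_nonneg (by norm_num)]
    intro i
    rw [Real.norm_eq_abs]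
    exact hx.1 i
  obtain ⟨x, hxS, hmax⟩ := hcpt.exists_isMaxOn hne
    (f := fun x : Fin N → ℝ => ∑ i, x i ^ 2) (by fun_prop)
  refine ⟨x, hxS.1, hxS.2, ?_⟩
  by_contra hcon
  push Not at hcon
  set I := univ.filter fun i => |x i| < 1 with hI
  -- a kernel vector supported on `I`
  let L : (I → ℝ) →ₗ[ℝ] (Fin n → ℝ) :=
    { toFun := fun y => fun k => ∑ i : I, y i * f i.1 k
      map_add' := by
        intro y z
        funext k
        simp [add_mul, Finset.sum_add_distrib]
      map_smul' := by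
        intro c y
        funext k
        simp [Finset.mul_sum, mul_assoc] }
  have hker : LinearMap.ker L ≠ ⊥ := by
    apply LinearMap.ker_ne_bot_of_finrank_lt
    simpa using hcon
  obtain ⟨y, hy, hy0⟩ := (Submodule.ne_bot_iff _).mp hker
  rw [LinearMap.mem_ker] at hy
  let Y : Fin N → ℝ := fun i => if h : i ∈ I then y ⟨i, h⟩ else 0
  have hYsum : ∀ k, ∑ i, Y i * f i k = 0 := by
    intro k
    have h1 : ∑ i, Y i * f i k = ∑ i ∈ I, Y i * f i k := by
      symm
      apply Finset.sum_subset (subset_univ _)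
      intro i _ hi
      simp [Y, hi]
    rw [h1, ← Finset.sum_coe_sort]
    have h2 := congrFun hy k
    have h3 : (L y) k = ∑ i : I, y i * f i.1 k := rfl
    rw [h3] at h2
    rw [Pi.zero_apply] at h2
    rw [← h2]
    apply Finset.sum_congr rfl
    intro i _
    simp [Y]
  have hY0 : ∃ i, Y i ≠ 0 := by
    by_contra hc
    push Not at hc
    apply hy0
    funext i
    have := hc i.1
    simpa [Y] using this
  -- a small step
  obtain ⟨t, ht0, ht⟩ : ∃ t : ℝ, 0 < t ∧ ∀ i ∈ I, t * |Y i| ≤ 1 - |x i| := by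
    have hpos : ∀ i ∈ I, 0 < (1 - |x i|) / (|Y i| + 1) := by
      intro i hi
      have := (mem_filter.mp hi).2
      apply div_pos (by linarith) (by positivity)
    by_cases hIe : I.Nonempty
    · obtain ⟨j, hj, hjm⟩ := Finset.exists_min_image I (fun i => (1 - |x i|) / (|Y i| + 1)) hIe
      refine ⟨(1 - |x j|) / (|Y j| + 1), hpos j hj, ?_⟩
      intro i hi
      have h1 := hjm i hi
      have h2 : (1 - |x i|) / (|Y i| + 1) * |Y i| ≤ 1 - |x i| := by
        have h3 : 0 ≤ 1 - |x i| := by linarith [(mem_filter.mp hi).2]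
        rw [div_mul_eq_mul_div, div_le_iff₀ (by positivity)]
        nlinarith [abs_nonneg (Y i)]
      exact (mul_le_mul_of_nonneg_right h1 (abs_nonneg _)).trans h2
    · rw [Finset.not_nonempty_iff_eq_empty] at hIe
      exact ⟨1, one_pos, by rw [hIe]; simp⟩
  have hmem : ∀ s : ℝ, |s| = t → (fun i => x i + s * Y i) ∈ S := by
    intro s hs
    refine ⟨fun i => ?_, fun k => ?_⟩
    · show |x i + s * Y i| ≤ 1
      by_cases hi : i ∈ I
      · have := ht i hi
        refine (abs_add_le _ _).trans ?_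
        rw [abs_mul, hs]
        linarith
      · have : Y i = 0 := by simp [Y, hi]
        rw [this]
        simpa using hxS.1 i
    · have h1 : ∑ i, (x i + s * Y i) * f i k = ∑ i, x i * f i k + s * ∑ i, Y i * f i k := by
        rw [Finset.mul_sum, ← Finset.sum_add_distrib]
        apply Finset.sum_congr rfl
        intro i _
        ring
      rw [h1, hxS.2 k, hYsum k]; ring
  have m1 := hmax (hmem t (abs_of_pos ht0))
  have m2 := hmax (hmem (-t) (by rw [abs_neg, abs_of_pos ht0]))
  simp only [Set.mem_ofPred_eq] at m1 m2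
  have h1 : ∑ i, (x i + t * Y i) ^ 2 + ∑ i, (x i + -t * Y i) ^ 2 =
      2 * ∑ i, x i ^ 2 + 2 * t ^ 2 * ∑ i, Y i ^ 2 := by
    rw [Finset.mul_sum, Finset.mul_sum, ← Finset.sum_add_distrib, ← Finset.sum_add_distrib]
    apply Finset.sum_congr rfl
    intro i _
    ring
  have h2 : 0 < ∑ i, Y i ^ 2 := by
    obtain ⟨i, hi⟩ := hY0
    exact Finset.sum_pos' (fun i _ => sq_nonneg _) ⟨i, mem_univ _, by positivity⟩
  have h3 : 0 < 2 * t ^ 2 * ∑ i, Y i ^ 2 := by positivity
  linarith

/-- Spencer's theorem for arbitrarily many vectors -/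
theorem spencer (n N : ℕ) (f : Fin N → Fin n → ℝ) (hf : ∀ i k, |f i k| ≤ 1) :
    ∃ ε : Fin N → ℝ, (∀ i, ε i = 1 ∨ ε i = -1) ∧ ∀ k, |∑ i, ε i * f i k| ≤ 408 * Real.sqrt n := by
  classical
  rcases Nat.eq_zero_or_pos n with hn | hn
  · subst hn
    exact ⟨fun _ => 1, fun _ => Or.inl rfl, fun k => k.elim0⟩
  have hn1 : (1 : ℝ) ≤ Real.sqrt n := by
    rw [Real.one_le_sqrt]; exact_mod_cast hn
  obtain ⟨x, hx1, hx2, hx3⟩ := few_frac n N f
  set I := univ.filter fun i => |x i| < 1 with hI
  set c := I.card with hc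
  let e : Fin c ≃ I := I.equivFin.symm
  have hcn : (c : ℝ) ≤ n := by exact_mod_cast hx3
  set D : ℝ := 203 * Real.sqrt n with hD
  have hD0 : 0 ≤ D := by positivity
  have hher : ∀ I' : Finset (Fin c), ∃ χ : Fin c → ℝ, (∀ i, χ i = 1 ∨ χ i = -1) ∧
      ∀ k, |∑ i ∈ I', χ i * f (e i).1 k| ≤ D := by
    intro I'
    have hcard : Fintype.card I' ≤ n := by
      rw [Fintype.card_coe]
      have := Finset.card_le_univ I'
      rw [Fintype.card_fin] at this
      omega
    obtain ⟨ε', h1, h2⟩ := full n (Fintype.card I') hcard I' rfl (fun i => f (e i.1).1) (fun i k => hf _ _)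
    refine ⟨fun i => if h : i ∈ I' then ε' ⟨i, h⟩ else 1, ?_, ?_⟩
    · intro i
      by_cases h : i ∈ I'
      · simp only [h, dif_pos]; exact h1 _
      · simp [h]
    · intro k
      have e1 : ∑ i ∈ I', (if h : i ∈ I' then ε' ⟨i, h⟩ else 1) * f (e i).1 k =
          ∑ i : I', ε' i * f (e i.1).1 k := by
        rw [← Finset.sum_coe_sort]
        apply Finset.sum_congr rfl
        intro i _
        simp
      rw [e1]
      refine (h2 k).trans ?_
      have h3 := qq_mono n (Fintype.card I') hcard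
      rw [hD]
      linarith
  -- dyadic approximation
  let z : Fin c → ℝ := fun j => (1 + x (e j).1) / 2
  have hz0 : ∀ j, 0 ≤ z j := fun j => by
    have := (abs_le.mp (hx1 (e j).1)).1
    simp only [z]; linarith
  have hz1 : ∀ j, z j ≤ 1 := fun j => by
    have := (abs_le.mp (hx1 (e j).1)).2
    simp only [z]; linarith
  let y : Fin c → ℕ := fun j => ⌊z j * 2 ^ c⌋₊
  have hy1 : ∀ j, y j ≤ 2 ^ c := by
    intro j
    have h1 : ((y j : ℕ) : ℝ) ≤ z j * 2 ^ c := Nat.floor_le (mul_nonneg (hz0 j) (by positivity))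
    have h2 : ((y j : ℕ) : ℝ) ≤ 2 ^ c := h1.trans (by
      have := mul_le_mul_of_nonneg_right (hz1 j) (show (0 : ℝ) ≤ 2 ^ c by positivity)
      linarith)
    exact_mod_cast h2
  have hy2 : ∀ j, |z j - (y j : ℝ) / 2 ^ c| ≤ (1 / 2) ^ c := by
    intro j
    have h1 : ((y j : ℕ) : ℝ) ≤ z j * 2 ^ c := Nat.floor_le (mul_nonneg (hz0 j) (by positivity))
    have h2 : z j * 2 ^ c < (y j : ℝ) + 1 := Nat.lt_floor_add_one _
    have h3 : (0 : ℝ) < 2 ^ c := by positivity
    have h4 : z j - (y j : ℝ) / 2 ^ c = (z j * 2 ^ c - y j) / 2 ^ c := by field_simp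
    rw [h4, abs_div, abs_of_pos h3, abs_of_nonneg (by linarith), one_div, inv_pow, div_le_iff₀ h3,
      inv_mul_cancel₀ h3.ne']
    linarith
  obtain ⟨ee, hee⟩ := Tus.Sol_lsv.lsv_dyadic (X := Fin n) (fun j k => f (e j).1 k) D hD0 hher c y hy1
  -- the signs
  refine ⟨fun i => if h : i ∈ I then 2 * ((ee (e.symm ⟨i, h⟩) : ℕ) : ℝ) - 1 else x i, ?_, ?_⟩
  · intro i
    by_cases h : i ∈ I
    · simp only [h, dif_pos]
      have h1 : (ee (e.symm ⟨i, h⟩) : ℕ) = 0 ∨ (ee (e.symm ⟨i, h⟩) : ℕ) = 1 := by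
        have := (ee (e.symm ⟨i, h⟩)).2
        omega
      rcases h1 with h1 | h1 <;> rw [h1]
      · right; norm_num
      · left; norm_num
    · simp only [h, dif_neg, not_false_eq_true]
      have h1 : ¬ |x i| < 1 := by
        intro h2
        exact h (by rw [hI]; simp [h2])
      have h2 : |x i| = 1 := le_antisymm (hx1 i) (not_lt.mp h1)
      rcases abs_cases (x i) with ⟨h3, _⟩ | ⟨h3, _⟩
      · left; linarith
      · right; linarith
  · intro k
    have e1 : ∑ i, (if h : i ∈ I then 2 * ((ee (e.symm ⟨i, h⟩) : ℕ) : ℝ) - 1 else x i) * f i k =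
        ∑ i, (if h : i ∈ I then 2 * ((ee (e.symm ⟨i, h⟩) : ℕ) : ℝ) - 1 - x i else 0) * f i k +
          ∑ i, x i * f i k := by
      rw [← Finset.sum_add_distrib]
      apply Finset.sum_congr rfl
      intro i _
      by_cases h : i ∈ I
      · simp only [h, dif_pos]; ring
      · simp only [h, dif_neg, not_false_eq_true]; ring
    have e2 : ∑ i, (if h : i ∈ I then 2 * ((ee (e.symm ⟨i, h⟩) : ℕ) : ℝ) - 1 - x i else 0) * f i k =
        ∑ j : Fin c, (2 * ((ee j : ℕ) : ℝ) - 1 - x (e j).1) * f (e j).1 k := by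
      have h1 : ∑ i, (if h : i ∈ I then 2 * ((ee (e.symm ⟨i, h⟩) : ℕ) : ℝ) - 1 - x i else 0) * f i k =
          ∑ i ∈ I, (if h : i ∈ I then 2 * ((ee (e.symm ⟨i, h⟩) : ℕ) : ℝ) - 1 - x i else 0) * f i k := by
        symm
        apply Finset.sum_subset (subset_univ _)
        intro i _ hi
        simp [hi]
      rw [h1, ← Finset.sum_coe_sort, ← Equiv.sum_comp e]
      apply Finset.sum_congr rfl
      intro j _
      have : (e j).1 ∈ I := (e j).2
      simp
    have e3 : ∑ j : Fin c, (2 * ((ee j : ℕ) : ℝ) - 1 - x (e j).1) * f (e j).1 k =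
        -2 * (∑ j : Fin c, ((y j : ℝ) / 2 ^ c - ((ee j : ℕ) : ℝ)) * f (e j).1 k +
          ∑ j : Fin c, (z j - (y j : ℝ) / 2 ^ c) * f (e j).1 k) := by
      rw [← Finset.sum_add_distrib, Finset.mul_sum]
      apply Finset.sum_congr rfl
      intro j _
      simp only [z]
      ring
    rw [e1, e2, hx2 k, add_zero, e3, abs_mul]
    have h1 := hee k
    have h2 : |∑ j : Fin c, (z j - (y j : ℝ) / 2 ^ c) * f (e j).1 k| ≤ 1 := by
      refine (Finset.abs_sum_le_sum_abs _ _).trans ?_
      have h3 : ∑ j : Fin c, |(z j - (y j : ℝ) / 2 ^ c) * f (e j).1 k| ≤ ∑ j : Fin c, ((1 / 2 : ℝ)) ^ c := by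
        apply Finset.sum_le_sum
        intro j _
        rw [abs_mul]
        calc |z j - (y j : ℝ) / 2 ^ c| * |f (e j).1 k| ≤ (1 / 2) ^ c * 1 :=
              mul_le_mul (hy2 j) (hf _ _) (abs_nonneg _) (by positivity)
          _ = _ := mul_one _
      refine h3.trans ?_
      rw [Finset.sum_const, Finset.card_univ, Fintype.card_fin, nsmul_eq_mul]
      have h4 : (c : ℝ) ≤ 2 ^ c := by exact_mod_cast (Nat.lt_two_pow_self (n := c)).le
      have h5 : (0 : ℝ) < 2 ^ c := by positivity
      rw [one_div, inv_pow, mul_inv_le_iff₀ h5]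
      linarith
    have h6 : D * (1 - (1 / 2) ^ c) ≤ D := by
      have : (0 : ℝ) ≤ (1 / 2) ^ c := by positivity
      nlinarith
    have h7 := abs_add_le (∑ j : Fin c, ((y j : ℝ) / 2 ^ c - ((ee j : ℕ) : ℝ)) * f (e j).1 k)
      (∑ j : Fin c, (z j - (y j : ℝ) / 2 ^ c) * f (e j).1 k)
    have h8 : |(-2 : ℝ)| = 2 := by norm_num
    rw [h8]
    have h9 : |∑ j : Fin c, ((y j : ℝ) / 2 ^ c - ((ee j : ℕ) : ℝ)) * f (e j).1 k +
      ∑ j : Fin c, (z j - (y j : ℝ) / 2 ^ c) * f (e j).1 k| ≤ D + 1 := by linarith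
    rw [hD] at h9
    linarith

end Pool.Agent.TH586.Sp
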