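import Pool.Agent.W555.ZL
import Pool.Agent.H902R3.ZA.LBM
import Pool.Agent.H902R3.ZA.PLA
import Pool.Agent.H902R3.ZA.PLN
import Pool.Agent.H902R3.ZA.RES
import Pool.Agent.H902R3.ZA.DOM
import Pool.Agent.H902R3.ZA.SEC
import Pool.Agent.H902R3.ZA.SC
import Pool.Agent.H902R3.ZA.LAW
import Pool.Agent.H902R3.ZA.LOW
import Pool.Agent.H902R3.ZA.PHI
import Pool.Agent.H902R3.ZA.ROT
import Pool.Agent.H902R3.ZA.QJ
import Pool.Agent.H902R3.ZA.JEN
import Pool.Agent.H902R3.ZA.MEAN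
import Pool.Agent.H902R3.ZA.FIX
import Pool.Agent.H902R3.ZA.TWO
import Pool.Agent.H902R3.ZA.SHI
import Pool.Agent.H902R3.ZA.AVG
import Pool.Agent.H902R3.ZA.COL
import Pool.Agent.H902R3.ZA.STEPL
import Pool.Agent.H902R3.ZA.STEP
import Pool.Agent.H902R3.ZA.ITER
import Pool.Agent.H172R2.ZS.LEW
import Pool.Agent.H172R2.ZS.BAS
import Pool.Agent.H172R2.ZS.ONE
import Pool.Agent.H172R2.ZS.DET
import Pool.Agent.H172R2.ZS.MAP
import Pool.Agent.H172R2.ZS.GAU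
import Pool.Agent.H172R2.GS.HAM

set_option autoImplicit false

namespace Pool.Agent.TH586.ZonIter

open Pool.Agent.H902R3.ZA Pool.Agent.H172R2.ZS in
/-- all steps together (as in the proof of S13611) -/
theorem iter : S_ITER := by
  have hGAU : Pool.Agent.H172R2.ZS.S_GAU := GAU_ok (MAP_ok ONE_ok BAS_ok DET_ok)
  have hHAM : Pool.Agent.H172R2.ZS.S_HAM := Pool.Agent.H172R2.GS.HAM_ok
  have hPLN : S_PLN := PLN_ok (PLA_ok LBM_ok)
  have hDOM : S_DOM := DOM_ok RES_ok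
  have hSC : S_SC := SC_ok RES_ok (SEC_ok hPLN)
  have hLOW : S_LOW := LOW_ok hDOM hSC LAW_ok hGAU
  have hJEN : S_JEN := JEN_ok hPLN ROT_ok QJ_ok
  have hTWO : S_TWO := TWO_ok hLOW PHI_ok hJEN MEAN_ok (FIX_ok PHI_ok)
  have hCOL : S_COL := COL_ok SHI_ok AVG_ok hHAM
  exact ITER_ok (STEP_ok (STEPL_ok hTWO hCOL) LEW_ok BAS_ok)

end Pool.Agent.TH586.ZonIter
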