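import Pool.Agent.TH586.Lev

set_option autoImplicit false
set_option linter.unusedSectionVars false

/-!
# Monochromatic `x, x y, …, x y ^ k, x + f(y)` in fields of characteristic zero
-/

namespace Pool.Agent.TH586

open Finset Polynomial

section
variable {F : Type} [Field F] [CharZero F]

/-- The numbers `x, x y, …, x y ^ k` and `x + f(y)` have the same colour. -/
theorem geom (k : ℕ) {κ : Type} [Finite κ] (c : F → κ) (P : Finset F[X])
    (hP : ∀ f ∈ P, f.eval 0 = 0) :
    ∃ x y : F, x ≠ 0 ∧ y ≠ 0 ∧ (∀ j ≤ k, c (x * y ^ j) = c x) ∧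
      ∀ j ≤ k, ∀ f ∈ P, c (x * y ^ j + f.eval y) = c x := by
  classical
  obtain ⟨R, hR⟩ := TH956.vdw_finite κ (k + 1)
  set P' : Finset F[X] := insert X (((range (R + 1)) ×ˢ P).image
    (fun q => q.2.comp (X ^ (q.1 + 1)))) with hP'
  obtain ⟨x, u, hu, h⟩ := levels (F := F) (R + 1) (κ × Bool) (fun x => (c x, decide (x = 0))) P' (by
    intro f hf
    rw [hP', mem_insert] at hf
    rcases hf with rfl | hf
    · simp
    · obtain ⟨q, hq, rfl⟩ := mem_image.1 hf
      rw [mem_product] at hq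
      simp [eval_comp, hP _ hq.2])
  have hx : x ≠ 0 := by
    rintro rfl
    have h1 := h 0 (by omega) X (by rw [hP']; exact mem_insert_self _ _)
    have h2 := (Prod.ext_iff.1 h1).2
    simp [hu] at h2
  obtain ⟨a, d, ha, hd, hadR, k0, hk0⟩ := hR (fun m => c (x * u ^ m))
  have hpow : ∀ j, x * u ^ a * (u ^ d) ^ j = x * u ^ (a + d * j) := by
    intro j
    rw [← pow_mul, mul_assoc, ← pow_add]
  have hc0 : c (x * u ^ a) = k0 := by simpa using hk0 0 (Nat.zero_le _)
  refine ⟨x * u ^ a, u ^ d, mul_ne_zero hx (pow_ne_zero _ hu), pow_ne_zero _ hu, ?_, ?_⟩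
  · intro j hj
    rw [hpow, hk0 j (by omega), hc0]
  · intro j hj f hf
    have hj' : j ≤ k + 1 := by omega
    have hle : a + d * j ≤ R := le_trans (Nat.add_le_add_left (Nat.mul_le_mul_left _ hj') _) hadR
    have hdR : d ≤ R := by
      have : d * 1 ≤ d * (k + 1) := Nat.mul_le_mul_left _ (by omega)
      omega
    have h1 := h (a + d * j) (by omega) (f.comp (X ^ (d - 1 + 1))) (by
      rw [hP']
      have i1 : d - 1 ∈ range (R + 1) := mem_range.2 (by omega)
      exact mem_insert_of_mem (mem_image.2 ⟨(d - 1, f), mem_product.2 ⟨i1, hf⟩, rfl⟩))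
    have h2 := (Prod.ext_iff.1 h1).1
    have h3 : d - 1 + 1 = d := by omega
    simp only [h3, eval_comp, eval_pow, eval_X] at h2
    rw [hpow, h2, hk0 j hj', hc0]

end

end Pool.Agent.TH586
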