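import Pool.Agent.TH956.Main

set_option autoImplicit false
set_option linter.unusedSectionVars false

/-!
# Polynomial shifts along a geometric progression
-/

namespace Pool.Agent.TH586

open Finset Polynomial

section
variable {F : Type} [Field F] [CharZero F]

/-- Polynomial shifts of all levels `x u ^ m`, `m < E`. -/
theorem levels (E : ℕ) : ∀ (κ : Type) [Finite κ] (c : F → κ) (P : Finset F[X]),
    (∀ f ∈ P, f.eval 0 = 0) →
    ∃ x u : F, u ≠ 0 ∧ ∀ m < E, ∀ f ∈ P, c (x * u ^ m + f.eval u) = c (x * u ^ m) := by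
  classical
  induction E with
  | zero =>
    intro κ _ c P hP
    exact ⟨1, 1, one_ne_zero, fun m hm => absurd hm (by omega)⟩
  | succ E ih =>
    intro κ _ c P hP
    obtain ⟨r, M, h⟩ := TH956.ipvdw (A := F[X]) (Nat.card κ) P.card (P.sup natDegree)
    obtain ⟨V, -, hV⟩ := h (P.image (fun f => f.map C)) card_image_le
      (by
        intro p hp
        obtain ⟨f, hf, rfl⟩ := mem_image.1 hp
        rw [eval_zero_map, hP f hf, map_zero])
      (by
        intro p hp
        obtain ⟨f, hf, rfl⟩ := mem_image.1 hp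
        exact natDegree_map_le.trans (le_sup (f := natDegree) hf))
      (fun _ => X)
    -- the shifts for the induction hypothesis
    set P' : Finset F[X] := ((V ×ˢ (range (E + 1))).image (fun q => q.1 * X ^ (q.2 + 1))) ∪
      ((V ×ˢ ((range (E + 1)) ×ˢ ((range r) ×ˢ P))).image (fun q =>
        q.1 * X ^ (q.2.1 + 1) + C (((q.2.2.1 + 1 : ℕ) : F) ^ (q.2.1 + 1))⁻¹ *
          (q.2.2.2.comp (C ((q.2.2.1 + 1 : ℕ) : F) * X)))) with hP'
    obtain ⟨x, d, hd, hxd⟩ := ih (Fin (r + 1) × Fin (E + 2) → κ)
      (fun y q => c (((q.1 : ℕ) : F) ^ (q.2 : ℕ) * y)) P' (by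
        intro f hf
        rw [hP', mem_union] at hf
        rcases hf with hf | hf
        · obtain ⟨q, -, rfl⟩ := mem_image.1 hf
          simp
        · obtain ⟨q, hq, rfl⟩ := mem_image.1 hf
          rw [mem_product, mem_product, mem_product] at hq
          simp [hP _ hq.2.2.2])
    obtain ⟨z, hz, α, hα, hαr, hzα⟩ := hV κ le_rfl (fun q => c (x / d + q.eval d))
    set n : ℕ := α.card with hn
    have hn1 : 1 ≤ n := card_pos.2 hα
    have hnr : n ≤ r := by simpa using card_le_card hαr
    have hn0 : (n : F) ≠ 0 := by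
      rw [Nat.cast_ne_zero]; omega
    refine ⟨x / d + z.eval d, n * d, mul_ne_zero hn0 hd, ?_⟩
    intro m hm f hf
    rcases Nat.eq_zero_or_pos m with rfl | hm0
    · have h1 := hzα (f.map C) (mem_image_of_mem _ hf)
      have h2 : (∑ _i ∈ α, (X : F[X])) = C (n : F) * X := by
        rw [sum_const, nsmul_eq_mul]
        simp [hn]
      rw [h2] at h1
      have h3 : ((f.map C).eval (C (n : F) * X)).eval d = f.eval (n * d) := by
        have h4 : (f.map C).eval (C (n : F) * X) = f.comp (C (n : F) * X) := by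
          rw [eval_map, comp]
        rw [h4, eval_comp, eval_mul, eval_C, eval_X]
      simp only [eval_add, h3] at h1
      rw [pow_zero, mul_one, add_assoc]
      exact h1
    · obtain ⟨m, rfl⟩ : ∃ m', m = m' + 1 := ⟨m - 1, by omega⟩
      have hmE : m < E := by omega
      have e1 : (x / d + z.eval d) * (n * d) ^ (m + 1) =
          (n : F) ^ (m + 1) * (x * d ^ m + z.eval d * d ^ (m + 1)) := by
        rw [mul_pow]
        have e0 : x / d * d ^ (m + 1) = x * d ^ m := by
          rw [pow_succ]; field_simp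
        rw [← e0]
        ring
      have e2 : (x / d + z.eval d) * (n * d) ^ (m + 1) + f.eval (n * d) =
          (n : F) ^ (m + 1) * (x * d ^ m + (z.eval d * d ^ (m + 1) +
            ((n : F) ^ (m + 1))⁻¹ * f.eval (n * d))) := by
        rw [e1]
        have e0 : (n : F) ^ (m + 1) * (((n : F) ^ (m + 1))⁻¹ * f.eval (n * d)) =
            f.eval (n * d) := by
          rw [← mul_assoc, mul_inv_cancel₀ (pow_ne_zero _ hn0), one_mul]
        rw [← add_assoc, mul_add _ _ (((n : F) ^ (m + 1))⁻¹ * f.eval (n * d)), e0]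
      have k1 := hxd m hmE (z * X ^ (m + 1)) (by
        rw [hP']
        exact mem_union_left _ (mem_image.2 ⟨(z, m), mem_product.2 ⟨hz, mem_range.2 (by omega)⟩,
          rfl⟩))
      have k2 := hxd m hmE (z * X ^ (m + 1) + C (((n - 1 + 1 : ℕ) : F) ^ (m + 1))⁻¹ *
          (f.comp (C ((n - 1 + 1 : ℕ) : F) * X))) (by
        rw [hP']
        have i1 : m ∈ range (E + 1) := mem_range.2 (by omega)
        have i2 : n - 1 ∈ range r := mem_range.2 (by omega)
        exact mem_union_right _ (mem_image.2 ⟨(z, m, n - 1, f), mem_product.2 ⟨hz,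
          mem_product.2 ⟨i1, mem_product.2 ⟨i2, hf⟩⟩⟩, rfl⟩))
      have hn' : n - 1 + 1 = n := by omega
      rw [hn'] at k2
      have k1' := congrFun k1 (⟨n, by omega⟩, ⟨m + 1, by omega⟩)
      have k2' := congrFun k2 (⟨n, by omega⟩, ⟨m + 1, by omega⟩)
      simp only [eval_add, eval_mul, eval_pow, eval_X, eval_C, eval_comp] at k1' k2'
      rw [e2, k2', e1, k1']

end

end Pool.Agent.TH586
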